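import Pool.Agent.helper94.SLK.TI

/-! # Topologically slice framed string knots give topologically slice string links -/

open Set Filter
open scoped ContDiff Topology

namespace Pool.Agent.helper94.SLK

/-- placing 4-space in the small cylinder -/
noncomputable def TP_S (c : ℝ) : R4 ≃ₜ R4 where
  toFun y := (sc c y.1, y.2)
  invFun y := (rc c y.1, y.2)
  left_inv y := by simp only [TI_sc_rc]
  right_inv y := by simp only [TI_rc_sc]
  continuous_toFun := ((TI_sc_smooth c).continuous.comp continuous_fst).prodMk continuous_snd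
  continuous_invFun := ((TI_rc_smooth c).continuous.comp continuous_fst).prodMk continuous_snd

/-- rearranging coordinates -/
noncomputable def TP_R (p : R2) : R4 ≃ₜ R2 × R2 where
  toFun w := ((w.1.2, w.2), w.1.1 - p)
  invFun u := ((u.2 + p, u.1.1), u.1.2)
  left_inv w := by simp
  right_inv u := by simp
  continuous_toFun := by fun_prop
  continuous_invFun := by fun_prop

theorem TP_disk {J : FK} {e : OpenPartialHomeomorph R4 R4}
    (hin : ∀ x ∈ tube, ∀ s, 0 < x.2 → x.2 < 1 → 0 < s → s < 1 → e (x, s) ∈ cyl4)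
    (h0 : ∀ x ∈ tube, ∀ s, s ≤ 1 / 4 → e (x, s) = (J.φ x, s))
    (h1 : ∀ x ∈ tube, ∀ s, 3 / 4 ≤ s → e (x, s) = (x, s))
    (he : ∀ x ∈ tube, ∀ s, (x.2 ≤ 1 / 4 ∨ 3 / 4 ≤ x.2) → e (x, s) = (x, s)) {x : R3} (hx : x ∈ tube) (s : ℝ) :
    (e (x, s)).1.1 ∈ disk := by
  have hx' : x.1.1 ^ 2 + x.1.2 ^ 2 < 9 / 16 := hx
  have hd : x.1 ∈ disk := by
    show x.1.1 ^ 2 + x.1.2 ^ 2 < 1
    linarith
  rcases le_or_gt s (1 / 4) with h | h
  · rw [h0 x hx s h]
    exact (TI_vals J hx).1
  rcases le_or_gt (3 / 4) s with h' | h'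
  · rw [h1 x hx s h']
    exact hd
  rcases le_or_gt x.2 (1 / 4) with h2 | h2
  · rw [he x hx s (Or.inl h2)]
    exact hd
  rcases le_or_gt (3 / 4) x.2 with h3 | h3
  · rw [he x hx s (Or.inr h3)]
    exact hd
  exact (hin x hx s (by linarith) (by linarith) (by linarith) (by linarith)).1.1

/-- TP -/
theorem TP {c : ℝ} (hc : |c| ≤ 1 / 4) {a b : ℕ} (hab : TC c a b) (m : ℕ) (J : FK) (hJ : J.TopSlice)
    (L T : SL m (pts m)) (hL : L.f = tieF c a b m J) (hT : T.f = trivF m) : TopConc L T := by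
  obtain ⟨ha, hb, hne, ho⟩ := hab
  obtain ⟨e, hes, hin, h0, h1, he⟩ := hJ
  have e1 : (-1 / 2 : ℝ) ^ 2 = 1 / 4 := by norm_num
  have e2 : (1 / 2 : ℝ) ^ 2 = 1 / 4 := by norm_num
  have hdisk := fun (x : R3) (hx : x ∈ tube) (s : ℝ) => TP_disk hin h0 h1 he hx s
  set E : ℝ → ℝ × ℝ → R4 := fun ε q => TP_S c (e (((ε, 0), q.1), q.2)) with hE
  set F : Fin m → ℝ × ℝ → R4 := fun i q =>
    if (i : ℕ) = a then E (-1 / 2) q else if (i : ℕ) = b then E (1 / 2) q else ((pts m i, q.1), q.2) with hF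
  have fa : ∀ i : Fin m, (i : ℕ) = a → F i = E (-1 / 2) := fun i h => by
    funext t
    simp only [hF]
    rw [if_pos h]
  have fb : ∀ i : Fin m, (i : ℕ) = b → F i = E (1 / 2) := fun i h => by
    funext t
    simp only [hF]
    rw [if_neg (by rw [h]; exact hne.symm), if_pos h]
  have fo : ∀ i : Fin m, (i : ℕ) ≠ a → (i : ℕ) ≠ b → F i = fun q => ((pts m i, q.1), q.2) := fun i h h' => by
    funext t
    simp only [hF]
    rw [if_neg h, if_neg h']
  have cases3 : ∀ i : Fin m, (i : ℕ) = a ∨ (i : ℕ) = b ∨ ((i : ℕ) ≠ a ∧ (i : ℕ) ≠ b) := fun i => by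
    by_cases h1 : (i : ℕ) = a
    · exact Or.inl h1
    · by_cases h2 : (i : ℕ) = b
      · exact Or.inr (Or.inl h2)
      · exact Or.inr (Or.inr ⟨h1, h2⟩)
  have ro : ∀ i : Fin m, (i : ℕ) ≠ a → (i : ℕ) ≠ b → ∀ q : ℝ × ℝ, 1 / 4 < rho c (F i q).1 := fun i h h' q => by
    rw [fo i h h']
    exact ho i h h'
  have src : ∀ ε : ℝ, ε ^ 2 = 1 / 4 → ∀ q : ℝ × ℝ, ((((ε, 0), q.1), q.2) : R4) ∈ e.source := fun ε hε q => by
    rw [hes]
    exact TI_line hε q.1
  have rS : ∀ y : R4, y.1 ∈ tube → rho c (TP_S c (e y)).1 < 1 / 4 := fun y hy => by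
    have h := hdisk y.1 hy y.2
    have h' : (e y).1.1.1 ^ 2 + (e y).1.1.2 ^ 2 < 1 := h
    show rho c (sc c (e y).1) < 1 / 4
    rw [TI_rho]
    linarith
  have rE : ∀ ε : ℝ, ε ^ 2 = 1 / 4 → ∀ q : ℝ × ℝ, rho c (E ε q).1 < 1 / 4 := fun ε hε q =>
    rS (((ε, 0), q.1), q.2) (TI_line hε q.1)
  have Einj : ∀ ε ε' : ℝ, ε ^ 2 = 1 / 4 → ε' ^ 2 = 1 / 4 → ∀ q r : ℝ × ℝ, E ε q = E ε' r → ε = ε' ∧ q = r := by
    intro ε ε' hε hε' q r h
    have u1 := (TP_S c).injective h
    have u2 := e.injOn (src ε hε q) (src ε' hε' r) u1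
    have u3 : ε = ε' := congrArg (fun y : R4 => y.1.1.1) u2
    have u4 : q.1 = r.1 := congrArg (fun y : R4 => y.1.2) u2
    have u5 : q.2 = r.2 := congrArg (fun y : R4 => y.2) u2
    exact ⟨u3, Prod.ext u4 u5⟩
  have Econt : ∀ ε : ℝ, ε ^ 2 = 1 / 4 → Continuous (E ε) := by
    intro ε hε
    refine (TP_S c).continuous.comp ?_
    exact e.continuousOn.comp_continuous (f := fun q : ℝ × ℝ => ((((ε, 0), q.1), q.2) : R4)) (by fun_prop)
      (src ε hε)
  have Eends : ∀ ε : ℝ, ε ^ 2 = 1 / 4 → ∀ t s, (3 / 4 ≤ s ∨ t ≤ 1 / 4 ∨ 3 / 4 ≤ t) →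
      E ε (t, s) = (((c + ε / 2, 0), t), s) := by
    intro ε hε t s h
    have : e (((ε, 0), t), s) = (((ε, 0), t), s) := by
      rcases h with h | h
      · exact h1 _ (TI_line hε t) s h
      · exact he _ (TI_line hε t) s h
    simp only [hE]
    rw [this]
    show ((sc c ((ε, 0), t), s) : R4) = _
    simp [sc]
  have pa : ∀ i : Fin m, (i : ℕ) = a → pts m i = (c - 1 / 4, 0) := fun i h => by rw [← ha, ← h]; rfl
  have pb : ∀ i : Fin m, (i : ℕ) = b → pts m i = (c + 1 / 4, 0) := fun i h => by rw [← hb, ← h]; rfl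
  have Fends : ∀ i t s, (3 / 4 ≤ s ∨ t ≤ 1 / 4 ∨ 3 / 4 ≤ t) → F i (t, s) = ((pts m i, t), s) := by
    intro i t s h
    rcases cases3 i with h' | h' | h'
    · rw [fa i h', Eends _ e1 t s h, pa i h']
      refine Prod.ext (Prod.ext (Prod.ext ?_ rfl) rfl) rfl
      simp only
      ring
    · rw [fb i h', Eends _ e2 t s h, pb i h']
      refine Prod.ext (Prod.ext (Prod.ext ?_ rfl) rfl) rfl
      simp only
      ring
    · rw [fo i h'.1 h'.2]
  -- local flatness near the tied strands
  have flat : ∀ ε : ℝ, ε ^ 2 = 1 / 4 → (∃ i : Fin m, F i = E ε) → ∀ q : ℝ × ℝ,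
      ∃ e' : OpenPartialHomeomorph R4 (R2 × R2), E ε q ∈ e'.source ∧
        ∀ x ∈ e'.source, (∃ j r, F j r = x) ↔ (e' x).2 = 0 := by
    intro ε hε hi q
    have hV : IsOpen {y : R4 | 0 < ε * y.1.1.1} := by
      apply isOpen_lt <;> fun_prop
    set e₁ := e.restrOpen {y : R4 | 0 < ε * y.1.1.1} hV with he₁
    have s1 : e₁.source = e.source ∩ {y : R4 | 0 < ε * y.1.1.1} := e.restrOpen_source _ hV
    have v1 : ∀ y, e₁ y = e y := fun y => rfl
    refine ⟨((TP_S c).symm.toOpenPartialHomeomorph.trans e₁.symm).trans (TP_R (ε, 0)).toOpenPartialHomeomorph,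
      ?_, ?_⟩
    · have hy : ((((ε, 0), q.1), q.2) : R4) ∈ e₁.source := by
        rw [s1]
        refine ⟨src ε hε q, ?_⟩
        show 0 < ε * ε
        nlinarith
      have : (TP_S c).symm (E ε q) ∈ e₁.target := by
        simp only [hE, Homeomorph.symm_apply_apply]
        exact e₁.map_source hy
      simpa using this
    · intro x hx
      have hx1 : (TP_S c).symm x ∈ e₁.target := by simpa using hx
      set y := e₁.symm ((TP_S c).symm x) with hy
      have hys : y ∈ e₁.source := e₁.map_target hx1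
      have hey : e y = (TP_S c).symm x := e₁.right_inv hx1
      have hxy : x = TP_S c (e y) := by rw [hey, Homeomorph.apply_symm_apply]
      have hys' : y ∈ e.source ∧ 0 < ε * y.1.1.1 := by
        rw [s1] at hys
        exact hys
      have hyt : y.1 ∈ tube := by
        have := hys'.1
        rw [hes] at this
        exact this
      have hval : ((((TP_S c).symm.toOpenPartialHomeomorph.trans e₁.symm).trans
          (TP_R (ε, 0)).toOpenPartialHomeomorph) x).2 = y.1.1 - (ε, 0) := rfl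
      rw [hval, sub_eq_zero]
      constructor
      · rintro ⟨j, r, hjr⟩
        have key : ∀ ε' : ℝ, ε' ^ 2 = 1 / 4 → E ε' r = x → y.1.1 = (ε, 0) := by
          intro ε' hε' h
          rw [hxy] at h
          have u1 := (TP_S c).injective h
          have u2 := e.injOn (src ε' hε' r) hys'.1 u1
          have u3 : y.1.1 = (ε', 0) := by rw [← u2]
          have u4 := hys'.2
          rw [u3] at u4
          have u5 : (ε - ε') * (ε + ε') = 0 := by nlinarith
          rcases mul_eq_zero.1 u5 with u6 | u6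
          · rw [u3, show ε' = ε by linarith]
          · exfalso
            have u7 : ε' = -ε := by linarith
            rw [u7] at u4
            simp only at u4
            nlinarith
        rcases cases3 j with h' | h' | h'
        · rw [fa j h'] at hjr
          exact key _ e1 hjr
        · rw [fb j h'] at hjr
          exact key _ e2 hjr
        · have u1 := ro j h'.1 h'.2 r
          rw [hjr, hxy] at u1
          exact absurd (rS y hyt) (not_lt.2 u1.le)
      · intro h
        obtain ⟨i, hi⟩ := hi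
        refine ⟨i, (y.1.2, y.2), ?_⟩
        rw [hi, hxy]
        simp only [hE]
        rw [show ((((ε, 0), y.1.2), y.2) : R4) = y by rw [← h]]
  refine ⟨F, ?_, ?_, ?_, ?_, 1 / 4, by norm_num, ?_, ?_, ?_⟩
  · intro i
    rcases cases3 i with h' | h' | h'
    · rw [fa i h']; exact Econt _ e1
    · rw [fb i h']; exact Econt _ e2
    · rw [fo i h'.1 h'.2]; fun_prop
  · intro i q
    rcases cases3 i with h' | h' | h'
    · rw [fa i h']
      exact flat _ e1 ⟨i, fa i h'⟩ q
    · rw [fb i h']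
      exact flat _ e2 ⟨i, fb i h'⟩ q
    · have hU1 : IsOpen {x : R4 | 1 / 4 < rho c x.1} := by
        unfold rho
        apply isOpen_lt <;> fun_prop
      have hfin : ((pts m) '' {j | j ≠ i}).Finite := Set.toFinite _
      have hU2 : IsOpen ((fun x : R4 => x.1.1) ⁻¹' ((pts m) '' {j | j ≠ i})ᶜ) :=
        hfin.isClosed.isOpen_compl.preimage (by fun_prop)
      refine ⟨(TP_R (pts m i)).toOpenPartialHomeomorph.restrOpen _ (hU1.inter hU2), ?_, ?_⟩
      · rw [OpenPartialHomeomorph.restrOpen_source]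
        refine ⟨mem_univ _, ro i h'.1 h'.2 q, ?_⟩
        rw [fo i h'.1 h'.2]
        rintro ⟨j, hj, hj'⟩
        exact hj (Fin.ext (TI_inj hj'))
      · intro x hx
        rw [OpenPartialHomeomorph.restrOpen_source] at hx
        obtain ⟨-, hx1, hx2⟩ := hx
        have hval : (((TP_R (pts m i)).toOpenPartialHomeomorph.restrOpen _ (hU1.inter hU2)) x).2 =
            x.1.1 - pts m i := rfl
        rw [hval, sub_eq_zero]
        constructor
        · rintro ⟨j, r, hjr⟩
          rcases cases3 j with h2 | h2 | h2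
          · rw [fa j h2] at hjr
            have := rE _ e1 r
            rw [hjr] at this
            exact absurd this (not_lt.2 (le_of_lt hx1))
          · rw [fb j h2] at hjr
            have := rE _ e2 r
            rw [hjr] at this
            exact absurd this (not_lt.2 (le_of_lt hx1))
          · rw [fo j h2.1 h2.2] at hjr
            have u1 : x.1.1 = pts m j := by rw [← hjr]
            by_cases hji : j = i
            · rw [u1, hji]
            · exact absurd ⟨j, hji, u1.symm⟩ hx2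
        · intro h
          refine ⟨i, (x.1.2, x.2), ?_⟩
          rw [fo i h'.1 h'.2]
          simp only
          rw [← h]
  · intro i j q r hq
    rcases cases3 i with h | h | h <;> rcases cases3 j with h' | h' | h'
    · rw [fa i h, fa j h'] at hq
      exact ⟨Fin.ext (h.trans h'.symm), (Einj _ _ e1 e1 q r hq).2⟩
    · rw [fa i h, fb j h'] at hq
      have := (Einj _ _ e1 e2 q r hq).1
      norm_num at this
    · have u := ro j h'.1 h'.2 r
      rw [← hq, fa i h] at u
      exact absurd (rE _ e1 q) (not_lt.2 u.le)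
    · rw [fb i h, fa j h'] at hq
      have := (Einj _ _ e2 e1 q r hq).1
      norm_num at this
    · rw [fb i h, fb j h'] at hq
      exact ⟨Fin.ext (h.trans h'.symm), (Einj _ _ e2 e2 q r hq).2⟩
    · have u := ro j h'.1 h'.2 r
      rw [← hq, fb i h] at u
      exact absurd (rE _ e2 q) (not_lt.2 u.le)
    · have u := ro i h.1 h.2 q
      rw [hq, fa j h'] at u
      exact absurd (rE _ e1 r) (not_lt.2 u.le)
    · have u := ro i h.1 h.2 q
      rw [hq, fb j h'] at u
      exact absurd (rE _ e2 r) (not_lt.2 u.le)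
    · rw [fo i h.1 h.2, fo j h'.1 h'.2] at hq
      have u1 : pts m i = pts m j := congrArg (fun x : R4 => x.1.1) hq
      have u2 : q.1 = r.1 := congrArg (fun x : R4 => x.1.2) hq
      have u3 : q.2 = r.2 := congrArg (fun x : R4 => x.2) hq
      exact ⟨Fin.ext (TI_inj u1), Prod.ext u2 u3⟩
  · intro i t s ht0 ht1 hs0 hs1
    have key : ∀ ε : ℝ, ε ^ 2 = 1 / 4 → E ε (t, s) ∈ cyl4 := by
      intro ε hε
      have h2 := hin _ (TI_line hε t) s ht0 ht1 hs0 hs1
      refine ⟨⟨?_, h2.1.2⟩, h2.2⟩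
      have h3 : (e (((ε, 0), t), s)).1.1.1 ^ 2 + (e (((ε, 0), t), s)).1.1.2 ^ 2 < 1 := h2.1.1
      show (c + (e (((ε, 0), t), s)).1.1.1 / 2) ^ 2 + ((e (((ε, 0), t), s)).1.1.2 / 2) ^ 2 < 1
      have hc' := abs_le.1 hc
      have e1 : c ^ 2 ≤ 1 / 16 := by nlinarith [hc'.1, hc'.2]
      nlinarith [sq_nonneg (c - (e (((ε, 0), t), s)).1.1.1 / 2), sq_nonneg (e (((ε, 0), t), s)).1.1.2]
    rcases cases3 i with h' | h' | h'
    · rw [fa i h']; exact key _ e1
    · rw [fb i h']; exact key _ e2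
    · rw [fo i h'.1 h'.2]
      exact ⟨⟨TI_disk i, ht0, ht1⟩, hs0, hs1⟩
  · intro i t s hs
    have key : ∀ ε : ℝ, ε ^ 2 = 1 / 4 → E ε (t, s) = (KK c J ε t, s) := by
      intro ε hε
      simp only [hE]
      rw [h0 _ (TI_line hε t) s hs]
      rfl
    rw [hL, TI_tie]
    rcases cases3 i with h' | h' | h'
    · rw [fa i h', key _ e1, if_pos h']
    · rw [fb i h', key _ e2, if_neg (by rw [h']; exact hne.symm), if_pos h']
    · rw [fo i h'.1 h'.2, if_neg h'.1, if_neg h'.2]
  · intro i t s hs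
    rw [hT, Fends i t s (Or.inl (by linarith))]
    rfl
  · intro i t s ht
    exact Fends i t s (Or.inr (ht.imp id (fun h => by linarith)))

end Pool.Agent.helper94.SLK
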