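import Pool.Agent.helper94.SLK.GM

/-! # The absorbing isotopy -/

open Set Filter
open scoped ContDiff Topology

namespace Pool.Agent.helper94.SLK

/-- the time function -/
noncomputable def AB_b (s : ℝ) : ℝ := Real.smoothTransition (2 * s - 1 / 2)

/-- the heights of the isotopy -/
noncomputable def AB_l (s z : ℝ) : ℝ := (1 - AB_b s) * z + AB_b s * ht z

theorem AB_b0 {s : ℝ} (h : s ≤ 1 / 4) : AB_b s = 0 := Real.smoothTransition.zero_of_nonpos (by linarith)
theorem AB_b1 {s : ℝ} (h : 3 / 4 ≤ s) : AB_b s = 1 := Real.smoothTransition.one_of_one_le (by linarith)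
theorem AB_bge (s : ℝ) : 0 ≤ AB_b s := Real.smoothTransition.nonneg _
theorem AB_ble (s : ℝ) : AB_b s ≤ 1 := Real.smoothTransition.le_one _

theorem AB_pos {a u v : ℝ} (h0 : 0 ≤ a) (h1 : a ≤ 1) (hu : 0 < u) (hv : 0 < v) : 0 < (1 - a) * u + a * v :=
  ZG_cv h0 h1 hu hv

theorem AB_l_gt {s z : ℝ} (h : 1 / 2 < z) : 1 / 2 < AB_l s z := by
  have h1 := HT.2.2.2.2.1 z h
  have := AB_pos (AB_bge s) (AB_ble s) (sub_pos.2 h) (sub_pos.2 h1)
  simp only [AB_l]
  linarith

theorem AB_l_lt {s z : ℝ} (h : z < 1 / 2) : AB_l s z < 1 / 2 := by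
  have h1 := HT.2.2.2.2.2 z h
  have := AB_pos (AB_bge s) (AB_ble s) (sub_pos.2 h) (sub_pos.2 h1)
  simp only [AB_l]
  linarith

theorem AB_ht_deriv (z : ℝ) : HasDerivAt ht (deriv ht z) z :=
  (HT.1.differentiable (by norm_num) z).hasDerivAt

theorem AB_l_deriv (s z : ℝ) : HasDerivAt (AB_l s) ((1 - AB_b s) * 1 + AB_b s * deriv ht z) z :=
  ((hasDerivAt_id z).const_mul (1 - AB_b s)).add ((AB_ht_deriv z).const_mul (AB_b s))

theorem AB_l_pos (s z : ℝ) : 0 < (1 - AB_b s) * 1 + AB_b s * deriv ht z :=
  AB_pos (AB_bge s) (AB_ble s) one_pos (HT.2.1 z)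

theorem AB_l_mono (s : ℝ) : StrictMono (AB_l s) := by
  apply strictMono_of_deriv_pos
  intro z
  rw [(AB_l_deriv s z).deriv]
  exact AB_l_pos s z

/-- the compressed zigzag -/
noncomputable def AB_H (q : ℝ × ℝ) : R3 := ((zig q.1).1, AB_l q.2 (zig q.1).2)

theorem AB_H_smooth : ContDiff ℝ ∞ AB_H := by
  have h1 : ContDiff ℝ ∞ (fun q : ℝ × ℝ => zig q.1) := ZG_zig_smooth.comp contDiff_fst
  have h2 : ContDiff ℝ ∞ (fun q : ℝ × ℝ => ht (zig q.1).2) := HT.1.comp (contDiff_snd.comp h1)
  have h3 : ContDiff ℝ ∞ (fun q : ℝ × ℝ => AB_b q.2) := by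
    unfold AB_b
    exact Real.smoothTransition.contDiff.comp (by fun_prop)
  have h4 : ContDiff ℝ ∞ (fun q : ℝ × ℝ => (zig q.1).2) := contDiff_snd.comp h1
  have h5 : ContDiff ℝ ∞ (fun q : ℝ × ℝ => (zig q.1).1) := contDiff_fst.comp h1
  unfold AB_H AB_l
  exact h5.prodMk (((contDiff_const.sub h3).mul h4).add (h3.mul h2))

theorem AB_H_deriv (s t : ℝ) : HasDerivAt (fun t => AB_H (t, s))
    ((deriv zx t, 0), ((1 - AB_b s) * 1 + AB_b s * deriv ht (zz t)) * deriv zz t) t := by
  have h1 : HasDerivAt zx (deriv zx t) t := (ZG_zx_smooth.differentiable (by norm_num) t).hasDerivAt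
  have h2 : HasDerivAt zz (deriv zz t) t := (ZG_zz_smooth.differentiable (by norm_num) t).hasDerivAt
  have h3 : HasDerivAt (fun t => AB_l s (zz t)) (((1 - AB_b s) * 1 + AB_b s * deriv ht (zz t)) * deriv zz t) t :=
    HasDerivAt.comp (h₂ := AB_l s) (h := zz) t (AB_l_deriv s (zz t)) h2
  exact (h1.prodMk (hasDerivAt_const t (0 : ℝ))).prodMk h3

theorem AB_H_imm (s t : ℝ) : deriv (fun t => AB_H (t, s)) t ≠ 0 := by
  rw [(AB_H_deriv s t).deriv]
  intro hc
  have e1 : deriv zx t = 0 := congrArg (fun x : R3 => x.1.1) hc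
  have e2 : ((1 - AB_b s) * 1 + AB_b s * deriv ht (zz t)) * deriv zz t = 0 := congrArg (fun x : R3 => x.2) hc
  have e3 : deriv zz t = 0 := (mul_eq_zero.1 e2).resolve_left (AB_l_pos s (zz t)).ne'
  apply ZG_immersion ST t
  rw [(ZG_zig_deriv t).deriv, e1, e3]
  rfl

theorem AB_H_inj (s : ℝ) : Function.Injective (fun t => AB_H (t, s)) := by
  intro t t' h
  have h1 : (zig t).1 = (zig t').1 := (Prod.ext_iff.1 h).1
  have h2 : AB_l s (zig t).2 = AB_l s (zig t').2 := (Prod.ext_iff.1 h).2
  exact ZG_injective ST (Prod.ext h1 ((AB_l_mono s).injective h2))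

theorem AB_dom (t s : ℝ) : AB_H (t, s) ∈ dom := by
  have hy : (zig t).1.2 = 0 := rfl
  rcases le_or_gt t (5 / 4) with h1 | h1
  · have e := ZG_left h1
    constructor
    · intro _ _
      left
      simp only [AB_H, rho, e]
      norm_num
    · intro _ _
      right
      simp only [AB_H, rho, e]
      norm_num
  rcases lt_or_ge t (7 / 4) with h2 | h2
  · obtain ⟨a1, a2, a3, a4⟩ := ZG_cap (t := t) (by linarith) (by linarith)
    have a5 := AB_l_gt (s := s) (show 1 / 2 < (zig t).2 by linarith)
    constructor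
    · intro _ _
      left
      simp only [AB_H, rho, hy]
      nlinarith
    · intro _ hc
      exact absurd hc (by simp only [AB_H]; linarith)
  rcases le_or_gt t (13 / 4) with h3 | h3
  · have e := ZG_mid h2 h3
    constructor
    · intro _ _
      left
      simp only [AB_H, rho, e]
      norm_num
    · intro _ _
      left
      simp only [AB_H, rho, e]
      norm_num
  rcases lt_or_ge t (15 / 4) with h4 | h4
  · obtain ⟨a1, a2, a3, a4⟩ := ZG_cup (t := t) (by linarith) (by linarith)
    have a5 := AB_l_lt (s := s) (show (zig t).2 < 1 / 2 by linarith)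
    constructor
    · intro hc _
      exact absurd hc (by simp only [AB_H]; linarith)
    · intro _ _
      left
      simp only [AB_H, rho, hy]
      nlinarith
  · have e := ZG_right h4
    constructor
    · intro _ _
      right
      simp only [AB_H, rho, e]
      norm_num
    · intro _ _
      left
      simp only [AB_H, rho, e]
      norm_num

/-- the end of the isotopy -/
noncomputable def AB_c (t : ℝ) : R3 := ((zig t).1, ht (zig t).2)

theorem AB_fix {g : R3 → R3} (hg : Good g) (t : ℝ) : g (AB_c t) = AB_c t := by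
  by_cases h1 : (zig t).2 < -1
  · have ht' : t ≤ 5 / 4 := by
      by_contra hc
      push Not at hc
      rcases lt_or_ge t (7 / 4) with h2 | h2
      · linarith [(ZG_cap (t := t) (by linarith) (by linarith)).1]
      rcases le_or_gt t (13 / 4) with h3 | h3
      · rw [ZG_mid h2 h3] at h1
        simp only at h1
        linarith
      rcases lt_or_ge t (15 / 4) with h4 | h4
      · linarith [(ZG_cup (t := t) (by linarith) (by linarith)).1]
      · rw [ZG_right h4] at h1
        simp only at h1
        linarith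
    apply hg.left
    · simp only [AB_c]
      rw [ZG_left ht']
    · exact (HT.2.2.2.2.2 _ (by linarith)).le
  by_cases h2 : 2 < (zig t).2
  · have ht' : 15 / 4 ≤ t := by
      by_contra hc
      push Not at hc
      rcases le_or_gt t (5 / 4) with h3 | h3
      · rw [ZG_left h3] at h2
        simp only at h2
        linarith
      rcases lt_or_ge t (7 / 4) with h4 | h4
      · linarith [(ZG_cap (t := t) (by linarith) (by linarith)).2.1]
      rcases le_or_gt t (13 / 4) with h5 | h5
      · rw [ZG_mid h4 h5] at h2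
        simp only at h2
        linarith
      · linarith [(ZG_cup (t := t) (by linarith) (by linarith)).2.1]
    apply hg.right
    · simp only [AB_c]
      rw [ZG_right ht']
    · exact (HT.2.2.2.2.1 _ (by linarith)).le
  · push Not at h1 h2
    obtain ⟨a, b⟩ := HT.2.2.2.1 _ h1 h2
    exact hg.id' _ (Or.inr (Or.inl ⟨a.le, b.le⟩))

theorem AB_gen {g : R3 → R3} (hg : Good g) : LConc (fun t => g (zig t)) AB_c := by
  have s1 : ContDiff ℝ ∞ (fun q => g (AB_H q)) := by
    rw [contDiff_iff_contDiffAt]
    intro q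
    exact ContDiffAt.comp (g := g) (f := AB_H) q (hg.cd _ (AB_dom q.1 q.2)) AB_H_smooth.contDiffAt
  refine IS (fun q => g (AB_H q)) _ _ s1 ?_ ?_ ?_ ?_ ?_
  · intro s t t' h
    exact AB_H_inj s (hg.inj (AB_dom t s) (AB_dom t' s) h)
  · intro s t
    exact fd_comp (g := g) (f := fun t => AB_H (t, s)) (x := t)
      ((hg.cd _ (AB_dom t s)).differentiableAt (by norm_num))
      (AB_H_deriv s t).differentiableAt (hg.fd _ (AB_dom t s)) (fd_deriv (AB_H_imm s t))
  · intro t s hs
    simp only [AB_H, AB_l, AB_b0 hs, sub_zero, one_mul, zero_mul, add_zero]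
  · intro t s hs
    have : AB_H (t, s) = AB_c t := by
      simp only [AB_H, AB_l, AB_b1 hs, AB_c, sub_self, one_mul, zero_mul, zero_add]
    rw [this]
    exact AB_fix hg t
  · refine ⟨7, fun t s htt => ?_⟩
    rcases le_abs.1 htt with h | h
    · have e := ZG_right (t := t) (by linarith)
      have e2 : ht (zig t).2 = (zig t).2 := by
        apply HT.2.2.1
        rw [e]
        exact le_abs.2 (Or.inl (by simp only; linarith))
      have e3 : AB_H (t, s) = zig t := by
        refine Prod.ext rfl ?_
        simp only [AB_H, AB_l, e2]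
        ring
      rw [e3]
      apply hg.id'
      right; right
      rw [e]
      simp only
      linarith
    · have e := ZG_left (t := t) (by linarith)
      have e2 : ht (zig t).2 = (zig t).2 := by
        apply HT.2.2.1
        rw [e]
        exact le_abs.2 (Or.inr (by simp only; linarith))
      have e3 : AB_H (t, s) = zig t := by
        refine Prod.ext rfl ?_
        simp only [AB_H, AB_l, e2]
        ring
      rw [e3]
      apply hg.id'
      left
      rw [e]
      simp only
      linarith

/-- AB -/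
theorem AB (J J' : FK) : LConc (fun t => gm J J' (zig t)) zig :=
  LT (AB_gen (Good_gm J J')) (LS (AB_gen Good_id))

/-- GZ: the closure of the stacked string link -/
theorem GZ (J J' : FK) {A B C : SL 3 (pts 3)} (hA : A.f = tieF (1 / 4) 1 2 3 J') (hB : B.f = tieF (-1 / 4) 0 1 3 J)
    (hC : C.f = stackF A B) (t : ℝ) : closF C t = gm J J' (zig t) := by
  have cf : ∀ i t, C.f i t = if t ≤ 1 / 2 then lo (A.f i (2 * t)) else hi (B.f i (2 * t - 1)) := fun i t => by
    rw [hC]; rfl
  have a0 : ∀ t, A.f 0 t = ((-1 / 2, 0), t) := fun t => by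
    rw [hA]
    simp [tieF, pts, P]
  have a1 : ∀ t, A.f 1 t = sc (1 / 4) (J'.φ ((-1 / 2, 0), t)) := fun t => by
    rw [hA]
    simp [tieF]
  have a2 : ∀ t, A.f 2 t = sc (1 / 4) (J'.φ ((1 / 2, 0), t)) := fun t => by
    rw [hA]
    simp [tieF]
  have b0 : ∀ t, B.f 0 t = sc (-1 / 4) (J.φ ((-1 / 2, 0), t)) := fun t => by
    rw [hB]
    simp [tieF]
  have b1 : ∀ t, B.f 1 t = sc (-1 / 4) (J.φ ((1 / 2, 0), t)) := fun t => by
    rw [hB]
    simp [tieF]
  have b2 : ∀ t, B.f 2 t = ((1 / 2, 0), t) := fun t => by
    rw [hB]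
    simp [tieF, pts, P]
  rcases CC_reg t with h | h | h | h | h
  · have e : closF C t = C.f 0 t := by
      simp only [closF]
      rw [if_pos h]
    rw [e, cf, ZG_left (by linarith)]
    split_ifs with h1
    · rw [a0, gm_lo' J J' (by simp only; linarith) (by simp only [rho]; norm_num)]
      simp only [lo]
      refine Prod.ext rfl ?_
      simp only
      ring
    · rw [b0, gm_up J J' (by simp only; linarith) (by simp only [rho]; norm_num), ← gg_gu]
      simp only [gu, rc]
      norm_num
  · have e : closF C t = zig t := by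
      simp only [closF]
      rw [if_neg (by linarith [h.1]), if_pos h.2]
    rw [e, gm_id J J' (Or.inr (Or.inr (by linarith [(ZG_cap h.1 h.2).1])))]
  · have e : closF C t = C.f 1 (3 - t) := by
      simp only [closF]
      rw [if_neg (by linarith [h.1]), if_neg (by linarith [h.1]), if_pos h.2]
    rw [e, cf, ZG_mid (by linarith [h.1]) (by linarith [h.2])]
    split_ifs with h1
    · rw [a1, gm_lo J J' (by simp only; linarith) (by simp only [rho]; norm_num), ← gg_gl]
      simp only [gl, rc]
      norm_num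
    · rw [b1, gm_up J J' (by simp only; linarith) (by simp only [rho]; norm_num), ← gg_gu]
      simp only [gu, rc]
      norm_num
  · have e : closF C t = zig t := by
      simp only [closF]
      rw [if_neg (by linarith [h.1]), if_neg (by linarith [h.1]), if_neg (by linarith [h.1]), if_pos h.2]
    rw [e, gm_id J J' (Or.inl (by linarith [(ZG_cup h.1 h.2).2.1]))]
  · have e : closF C t = C.f 2 (t - 4) := by
      simp only [closF]
      rw [if_neg (by linarith), if_neg (by linarith), if_neg (by linarith), if_neg (by linarith)]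
    rw [e, cf, ZG_right (by linarith)]
    split_ifs with h1
    · rw [a2, gm_lo J J' (by simp only; linarith) (by simp only [rho]; norm_num), ← gg_gl]
      simp only [gl, rc]
      norm_num
    · rw [b2, gm_up' J J' (by simp only; linarith) (by simp only [rho]; norm_num)]
      simp only [hi]
      refine Prod.ext rfl ?_
      simp only
      ring

end Pool.Agent.helper94.SLK
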