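import Pool.Agent.helper94.SLK.Spec

/-! # Module ST: the smooth step -/

open Set Filter
open scoped ContDiff

namespace Pool.Agent.helper94.SLK

theorem ST_deriv_exp {x : ℝ} (hx : 0 < x) :
    HasDerivAt expNegInvGlue (Real.exp (-x⁻¹) * (x⁻¹) ^ 2) x := by
  have h1 : HasDerivAt (fun y : ℝ => Real.exp (-y⁻¹)) (Real.exp (-x⁻¹) * (x⁻¹) ^ 2) x := by
    have h2 : HasDerivAt (fun y : ℝ => -y⁻¹) ((x⁻¹) ^ 2) x :=
      ((hasDerivAt_inv hx.ne').neg).congr_deriv (by field_simp)
    exact h2.exp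
  refine h1.congr_of_eventuallyEq ?_
  filter_upwards [lt_mem_nhds hx] with y hy
  simp [expNegInvGlue, not_le.2 hy]

theorem ST_deriv {x : ℝ} (hx : 0 < x) (hx1 : x < 1) : 0 < deriv Real.smoothTransition x := by
  have h1 := ST_deriv_exp hx
  have h2 : HasDerivAt (fun y : ℝ => expNegInvGlue (1 - y)) (-(Real.exp (-(1 - x)⁻¹) * ((1 - x)⁻¹) ^ 2)) x := by
    have h3 := ST_deriv_exp (show 0 < 1 - x by linarith)
    have h4 : HasDerivAt (fun y : ℝ => 1 - y) (-1) x := by
      simpa using (hasDerivAt_id x).const_sub 1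
    have h5 : HasDerivAt (fun y : ℝ => expNegInvGlue (1 - y))
        (Real.exp (-(1 - x)⁻¹) * ((1 - x)⁻¹) ^ 2 * (-1)) x :=
      HasDerivAt.comp (h₂ := expNegInvGlue) (h := fun y : ℝ => 1 - y) x h3 h4
    exact h5.congr_deriv (by ring)
  have hden : expNegInvGlue x + expNegInvGlue (1 - x) ≠ 0 :=
    (Real.smoothTransition.pos_denom x).ne'
  have h5 := h1.div (h1.add h2) hden
  have h6 : deriv Real.smoothTransition x = _ := h5.deriv
  rw [h6]
  have hp := Real.smoothTransition.pos_denom x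
  have e1 : 0 < expNegInvGlue x := expNegInvGlue.pos_of_pos hx
  have e2 : 0 < expNegInvGlue (1 - x) := expNegInvGlue.pos_of_pos (by linarith)
  have e3 : 0 < Real.exp (-x⁻¹) * (x⁻¹) ^ 2 := by positivity
  have e4 : 0 < Real.exp (-(1 - x)⁻¹) * ((1 - x)⁻¹) ^ 2 := by
    have : 0 < 1 - x := by linarith
    positivity
  apply div_pos
  · set a := Real.exp (-x⁻¹) * (x⁻¹) ^ 2
    set b := Real.exp (-(1 - x)⁻¹) * ((1 - x)⁻¹) ^ 2
    have : a * (expNegInvGlue x + expNegInvGlue (1 - x)) - expNegInvGlue x * (a + -b) =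
        a * expNegInvGlue (1 - x) + expNegInvGlue x * b := by ring
    first
      | rw [this]; positivity
      | (simp only [Pi.add_apply]; rw [this]; positivity)
  · first
      | positivity
      | (simp only [Pi.add_apply]; positivity)

theorem ST : ST_stmt := by
  refine ⟨?_, fun x h1 h2 => ST_deriv h1 h2⟩
  apply strictMonoOn_of_deriv_pos (convex_Icc 0 1) Real.smoothTransition.continuous.continuousOn
  intro x hx
  rw [interior_Icc] at hx
  exact ST_deriv hx.1 hx.2

end Pool.Agent.helper94.SLK
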