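import Pool.Agent.helper94.SLK.Spec

/-! # Module ZG: the planar zigzag -/

open Set Filter
open scoped ContDiff

namespace Pool.Agent.helper94.SLK

theorem ZG_st1_zero {t : ℝ} (h : t ≤ 5 / 4) : st1 t = 0 :=
  Real.smoothTransition.zero_of_nonpos (by linarith)

theorem ZG_st1_one {t : ℝ} (h : 7 / 4 ≤ t) : st1 t = 1 :=
  Real.smoothTransition.one_of_one_le (by linarith)

theorem ZG_st2_zero {t : ℝ} (h : t ≤ 13 / 4) : st2 t = 0 :=
  Real.smoothTransition.zero_of_nonpos (by linarith)

theorem ZG_st2_one {t : ℝ} (h : 15 / 4 ≤ t) : st2 t = 1 :=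
  Real.smoothTransition.one_of_one_le (by linarith)

theorem ZG_st1_smooth : ContDiff ℝ ∞ st1 := by
  unfold st1
  exact Real.smoothTransition.contDiff.comp (by fun_prop)

theorem ZG_st2_smooth : ContDiff ℝ ∞ st2 := by
  unfold st2
  exact Real.smoothTransition.contDiff.comp (by fun_prop)

theorem ZG_zx_smooth : ContDiff ℝ ∞ zx := by
  have h1 := ZG_st1_smooth
  have h2 := ZG_st2_smooth
  unfold zx
  fun_prop

theorem ZG_zz_smooth : ContDiff ℝ ∞ zz := by
  have h1 := ZG_st1_smooth
  have h2 := ZG_st2_smooth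
  unfold zz
  fun_prop

theorem ZG_zig_smooth : ContDiff ℝ ∞ zig := by
  have h1 := ZG_zx_smooth
  have h2 := ZG_zz_smooth
  unfold zig
  fun_prop

theorem ZG_mono1 : Monotone st1 := fun s t h => Real.smoothTransition.monotone (by linarith)
theorem ZG_mono2 : Monotone st2 := fun s t h => Real.smoothTransition.monotone (by linarith)

theorem ZG_left {t : ℝ} (h : t ≤ 5 / 4) : zig t = ((-1 / 2, 0), t) := by
  have h1 := ZG_st1_zero h
  have h2 : st2 t = 0 := ZG_st2_zero (by linarith)
  simp [zig, zx, zz, h1, h2]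

theorem ZG_mid {t : ℝ} (h : 7 / 4 ≤ t) (h' : t ≤ 13 / 4) : zig t = ((0, 0), 3 - t) := by
  have h1 := ZG_st1_one h
  have h2 : st2 t = 0 := ZG_st2_zero h'
  simp only [zig, zx, zz, h1, h2]
  norm_num
  ring

theorem ZG_right {t : ℝ} (h : 15 / 4 ≤ t) : zig t = ((1 / 2, 0), t - 4) := by
  have h1 : st1 t = 1 := ZG_st1_one (by linarith)
  have h2 : st2 t = 1 := ZG_st2_one h
  simp only [zig, zx, zz, h1, h2]
  norm_num
  ring

theorem ZG_deriv_sT (c : ℝ) (t : ℝ) :
    HasDerivAt (fun t => Real.smoothTransition (2 * t - c)) (deriv Real.smoothTransition (2 * t - c) * 2) t := by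
  have h1 : HasDerivAt (fun t : ℝ => 2 * t - c) 2 t := by
    simpa using ((hasDerivAt_id t).const_mul 2).sub_const c
  have h2 : HasDerivAt Real.smoothTransition (deriv Real.smoothTransition (2 * t - c)) (2 * t - c) :=
    ((Real.smoothTransition.contDiff (n := 1)).differentiable (by norm_num) _).hasDerivAt
  exact HasDerivAt.comp (h₂ := Real.smoothTransition) (h := fun t : ℝ => 2 * t - c) t h2 h1

theorem ZG_st1_deriv (t : ℝ) : HasDerivAt st1 (deriv Real.smoothTransition (2 * t - 5 / 2) * 2) t :=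
  ZG_deriv_sT _ t

theorem ZG_st2_deriv (t : ℝ) : HasDerivAt st2 (deriv Real.smoothTransition (2 * t - 13 / 2) * 2) t :=
  ZG_deriv_sT _ t

theorem ZG_zx_deriv (t : ℝ) : HasDerivAt zx
    (deriv Real.smoothTransition (2 * t - 5 / 2) + deriv Real.smoothTransition (2 * t - 13 / 2)) t := by
  have h1 := (((ZG_st1_deriv t).div_const 2).const_add (-1 / 2)).add ((ZG_st2_deriv t).div_const 2)
  exact h1.congr_deriv (by ring)

theorem ZG_zig_deriv (t : ℝ) : HasDerivAt zig ((deriv zx t, 0), deriv zz t) t := by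
  have h1 : HasDerivAt zx (deriv zx t) t := (ZG_zx_smooth.differentiable (by norm_num) t).hasDerivAt
  have h2 : HasDerivAt zz (deriv zz t) t := (ZG_zz_smooth.differentiable (by norm_num) t).hasDerivAt
  exact (h1.prodMk (hasDerivAt_const t (0 : ℝ))).prodMk h2

theorem ZG_zz_deriv_left {t : ℝ} (h : t ≤ 5 / 4) : deriv zz t = 1 := by
  have hz : deriv zz t = derivWithin zz (Iic t) t := by
    rw [(ZG_zz_smooth.differentiable (by norm_num) t).derivWithin (uniqueDiffWithinAt_Iic t)]
  rw [hz]
  have : ∀ y ∈ Iic t, zz y = id y := by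
    intro y hy
    have := ZG_left (le_trans hy h)
    simpa [zig] using congrArg Prod.snd this
  rw [derivWithin_congr this (this t (mem_Iic.2 le_rfl))]
  exact derivWithin_id _ _ (uniqueDiffWithinAt_Iic t)

theorem ZG_zz_deriv_right {t : ℝ} (h : 15 / 4 ≤ t) : deriv zz t = 1 := by
  have hz : deriv zz t = derivWithin zz (Ici t) t := by
    rw [(ZG_zz_smooth.differentiable (by norm_num) t).derivWithin (uniqueDiffWithinAt_Ici t)]
  rw [hz]
  have : ∀ y ∈ Ici t, zz y = (fun y => y - 4) y := by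
    intro y hy
    have := ZG_right (le_trans h hy)
    simpa [zig] using congrArg Prod.snd this
  rw [derivWithin_congr this (this t (mem_Ici.2 le_rfl))]
  have h1 : HasDerivAt (fun y : ℝ => y - 4) 1 t := (hasDerivAt_id t).sub_const 4
  exact h1.hasDerivWithinAt.derivWithin (uniqueDiffWithinAt_Ici t)

theorem ZG_zz_deriv_mid {t : ℝ} (h : 7 / 4 ≤ t) (h' : t ≤ 13 / 4) : deriv zz t = -1 := by
  have hu : UniqueDiffWithinAt ℝ (Icc (7 / 4 : ℝ) (13 / 4)) t :=
    uniqueDiffOn_Icc (by norm_num) t ⟨h, h'⟩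
  have hz : deriv zz t = derivWithin zz (Icc (7 / 4) (13 / 4)) t := by
    rw [(ZG_zz_smooth.differentiable (by norm_num) t).derivWithin hu]
  rw [hz]
  have : ∀ y ∈ Icc (7 / 4 : ℝ) (13 / 4), zz y = (fun y => 3 - y) y := by
    intro y hy
    have := ZG_mid hy.1 hy.2
    simpa [zig] using congrArg Prod.snd this
  rw [derivWithin_congr this (this t ⟨h, h'⟩)]
  have h1 : HasDerivAt (fun y : ℝ => 3 - y) (-1) t := (hasDerivAt_id t).const_sub 3
  exact h1.hasDerivWithinAt.derivWithin hu

theorem ZG_sT_deriv_zero (h : ST_stmt) {x : ℝ} (hx : deriv Real.smoothTransition x = 0) : x ≤ 0 ∨ 1 ≤ x := by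
  by_contra hc
  push Not at hc
  exact (h.2 x hc.1 hc.2).ne' hx

theorem ZG_sT_eq (h : ST_stmt) {x y : ℝ} (hxy : x < y)
    (he : Real.smoothTransition x = Real.smoothTransition y) : y ≤ 0 ∨ 1 ≤ x := by
  by_contra hc
  push Not at hc
  have h1 : max x 0 < min y 1 := by
    rw [max_lt_iff, lt_min_iff, lt_min_iff]
    exact ⟨⟨hxy, hc.2⟩, hc.1, one_pos⟩
  have h2 : Real.smoothTransition (max x 0) < Real.smoothTransition (min y 1) :=
    h.1 ⟨le_max_right _ _, (h1.le.trans (min_le_right _ _))⟩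
      ⟨((le_max_right x 0).trans h1.le), min_le_right _ _⟩ h1
  have h3 : Real.smoothTransition x ≤ Real.smoothTransition (max x 0) :=
    Real.smoothTransition.monotone (le_max_left _ _)
  have h4 : Real.smoothTransition (min y 1) ≤ Real.smoothTransition y :=
    Real.smoothTransition.monotone (min_le_left _ _)
  linarith

theorem ZG_immersion (h : ST_stmt) (t : ℝ) : deriv zig t ≠ 0 := by
  rw [(ZG_zig_deriv t).deriv]
  intro hc
  have hx : deriv zx t = 0 := by simpa using congrArg (fun z : R3 => z.1.1) hc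
  have hz : deriv zz t = 0 := by simpa using congrArg (fun z : R3 => z.2) hc
  rw [(ZG_zx_deriv t).deriv] at hx
  have a1 : 0 ≤ deriv Real.smoothTransition (2 * t - 5 / 2) := Real.smoothTransition.monotone.deriv_nonneg
  have a2 : 0 ≤ deriv Real.smoothTransition (2 * t - 13 / 2) := Real.smoothTransition.monotone.deriv_nonneg
  have b1 := ZG_sT_deriv_zero h (show deriv Real.smoothTransition (2 * t - 5 / 2) = 0 by linarith)
  have b2 := ZG_sT_deriv_zero h (show deriv Real.smoothTransition (2 * t - 13 / 2) = 0 by linarith)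
  rcases b1 with b1 | b1
  · rw [ZG_zz_deriv_left (by linarith)] at hz
    norm_num at hz
  · rcases b2 with b2 | b2
    · rw [ZG_zz_deriv_mid (by linarith) (by linarith)] at hz
      norm_num at hz
    · rw [ZG_zz_deriv_right (by linarith)] at hz
      norm_num at hz

theorem ZG_inj_aux (h : ST_stmt) {s t : ℝ} (hst : s < t) : zig s ≠ zig t := by
  intro hc
  have hx : zx s = zx t := congrArg (fun z : R3 => z.1.1) hc
  have hz : zz s = zz t := congrArg (fun z : R3 => z.2) hc
  have a1 := ZG_mono1 hst.le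
  have a2 := ZG_mono2 hst.le
  unfold zx at hx
  have e1 : st1 s = st1 t := by linarith
  have e2 : st2 s = st2 t := by linarith
  have b1 := ZG_sT_eq h (show 2 * s - 5 / 2 < 2 * t - 5 / 2 by linarith) e1
  have b2 := ZG_sT_eq h (show 2 * s - 13 / 2 < 2 * t - 13 / 2 by linarith) e2
  rcases b1 with b1 | b1
  · have c1 := ZG_left (t := s) (by linarith)
    have c2 := ZG_left (t := t) (by linarith)
    rw [c1, c2] at hc
    have := congrArg (fun z : R3 => z.2) hc
    simp only at this
    linarith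
  · rcases b2 with b2 | b2
    · have c1 := ZG_mid (t := s) (by linarith) (by linarith)
      have c2 := ZG_mid (t := t) (by linarith) (by linarith)
      rw [c1, c2] at hc
      have := congrArg (fun z : R3 => z.2) hc
      simp only at this
      linarith
    · have c1 := ZG_right (t := s) (by linarith)
      have c2 := ZG_right (t := t) (by linarith)
      rw [c1, c2] at hc
      have := congrArg (fun z : R3 => z.2) hc
      simp only at this
      linarith

theorem ZG_injective (h : ST_stmt) : Function.Injective zig := by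
  intro s t hst
  rcases lt_trichotomy s t with h1 | h1 | h1
  · exact absurd hst (ZG_inj_aux h h1)
  · exact h1
  · exact absurd hst.symm (ZG_inj_aux h h1)

theorem ZG_cv {a u v : ℝ} (h0 : 0 ≤ a) (h1 : a ≤ 1) (hu : 0 < u) (hv : 0 < v) : 0 < (1 - a) * u + a * v := by
  rcases h0.eq_or_lt with h | h
  · rw [← h]; linarith
  · have := mul_pos h hv
    have := mul_nonneg (sub_nonneg.2 h1) hu.le
    linarith

theorem ZG_cap {t : ℝ} (h : 1 < t) (h' : t < 2) :
    1 < (zig t).2 ∧ (zig t).2 < 2 ∧ -1 / 2 ≤ (zig t).1.1 ∧ (zig t).1.1 ≤ 0 := by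
  have h2 : st2 t = 0 := ZG_st2_zero (by linarith)
  have a0 : 0 ≤ st1 t := Real.smoothTransition.nonneg _
  have a1 : st1 t ≤ 1 := Real.smoothTransition.le_one _
  simp only [zig, zx, zz, h2]
  have b1 := ZG_cv a0 a1 (show 0 < t - 1 by linarith) (show 0 < 2 - t by linarith)
  have b2 := ZG_cv a0 a1 (show 0 < 2 - t by linarith) (show 0 < t - 1 by linarith)
  refine ⟨?_, ?_, by linarith, by linarith⟩
  · nlinarith
  · nlinarith

theorem ZG_cup {t : ℝ} (h : 3 < t) (h' : t < 4) :
    -1 < (zig t).2 ∧ (zig t).2 < 0 ∧ 0 ≤ (zig t).1.1 ∧ (zig t).1.1 ≤ 1 / 2 := by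
  have h2 : st1 t = 1 := ZG_st1_one (by linarith)
  have a0 : 0 ≤ st2 t := Real.smoothTransition.nonneg _
  have a1 : st2 t ≤ 1 := Real.smoothTransition.le_one _
  simp only [zig, zx, zz, h2]
  have b1 := ZG_cv a0 a1 (show 0 < 4 - t by linarith) (show 0 < t - 3 by linarith)
  have b2 := ZG_cv a0 a1 (show 0 < t - 3 by linarith) (show 0 < 4 - t by linarith)
  refine ⟨?_, ?_, by linarith, by linarith⟩
  · nlinarith
  · nlinarith

theorem ZG (h : ST_stmt) : ZG_stmt :=
  ⟨ZG_zig_smooth, ZG_immersion h, ZG_injective h, fun _ h => ZG_left h, fun _ h h' => ZG_mid h h',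
    fun _ h => ZG_right h, fun _ h h' => ZG_cap h h', fun _ h h' => ZG_cup h h', fun _ => rfl⟩

end Pool.Agent.helper94.SLK
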