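import Pool.Agent.helper94.SLK.LX
import Pool.Agent.helper94.SLK.ST
import Pool.Agent.helper94.SLK.ZG

/-! # Closures of concordant string links are concordant -/

open Set Filter
open scoped ContDiff Topology

namespace Pool.Agent.helper94.SLK

theorem CC_p0 : pts 3 0 = (-1 / 2, 0) := rfl
theorem CC_p1 : pts 3 1 = (0, 0) := rfl
theorem CC_p2 : pts 3 2 = (1 / 2, 0) := rfl

/-- closures of a family -/
noncomputable def CC_G (F : Fin 3 → ℝ × ℝ → R4) (q : ℝ × ℝ) : R4 :=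
  if q.1 ≤ 1 then F 0 q else if q.1 < 2 then (zig q.1, q.2) else if q.1 ≤ 3 then F 1 (3 - q.1, q.2) else
    if q.1 < 4 then (zig q.1, q.2) else F 2 (q.1 - 4, q.2)

theorem CC_A {F : Fin 3 → ℝ × ℝ → R4} {t s : ℝ} (h : t ≤ 1) : CC_G F (t, s) = F 0 (t, s) := by
  simp only [CC_G]
  rw [if_pos h]

theorem CC_B {F : Fin 3 → ℝ × ℝ → R4} {t s : ℝ} (h : 1 < t) (h' : t < 2) : CC_G F (t, s) = (zig t, s) := by
  simp only [CC_G]
  rw [if_neg (not_le.2 h), if_pos h']

theorem CC_C {F : Fin 3 → ℝ × ℝ → R4} {t s : ℝ} (h : 2 ≤ t) (h' : t ≤ 3) : CC_G F (t, s) = F 1 (3 - t, s) := by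
  simp only [CC_G]
  rw [if_neg (by linarith), if_neg (by linarith), if_pos h']

theorem CC_D {F : Fin 3 → ℝ × ℝ → R4} {t s : ℝ} (h : 3 < t) (h' : t < 4) : CC_G F (t, s) = (zig t, s) := by
  simp only [CC_G]
  rw [if_neg (by linarith), if_neg (by linarith), if_neg (by linarith), if_pos h']

theorem CC_E {F : Fin 3 → ℝ × ℝ → R4} {t s : ℝ} (h : 4 ≤ t) : CC_G F (t, s) = F 2 (t - 4, s) := by
  simp only [CC_G]
  rw [if_neg (by linarith), if_neg (by linarith), if_neg (by linarith), if_neg (by linarith)]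

theorem CC_reg (t : ℝ) : t ≤ 1 ∨ (1 < t ∧ t < 2) ∨ (2 ≤ t ∧ t ≤ 3) ∨ (3 < t ∧ t < 4) ∨ 4 ≤ t := by
  rcases le_or_gt t 1 with h | h
  · exact Or.inl h
  rcases lt_or_ge t 2 with h2 | h2
  · exact Or.inr (Or.inl ⟨h, h2⟩)
  rcases le_or_gt t 3 with h3 | h3
  · exact Or.inr (Or.inr (Or.inl ⟨h2, h3⟩))
  rcases lt_or_ge t 4 with h4 | h4
  · exact Or.inr (Or.inr (Or.inr (Or.inl ⟨h3, h4⟩)))
  · exact Or.inr (Or.inr (Or.inr (Or.inr h4)))

theorem CC_reg' (t : ℝ) : t < 5 / 4 ∨ (1 < t ∧ t < 2) ∨ (7 / 4 < t ∧ t < 13 / 4) ∨ (3 < t ∧ t < 4) ∨ 15 / 4 < t := by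
  rcases CC_reg t with h | h | h | h | h
  · exact Or.inl (by linarith)
  · exact Or.inr (Or.inl h)
  · exact Or.inr (Or.inr (Or.inl ⟨by linarith, by linarith⟩))
  · exact Or.inr (Or.inr (Or.inr (Or.inl h)))
  · exact Or.inr (Or.inr (Or.inr (Or.inr (by linarith))))

/-- CC -/
theorem CC {L L' : SL 3 (pts 3)} (h : SmConc L L') : LConc (closF L) (closF L') := by
  obtain ⟨Zs, Zi, Zinj, Zl, Zm, Zr, Zcap, Zcup, -⟩ := ZG ST
  obtain ⟨F, hF, hI, hinj, hin, δ, hδ, h0, h1, he⟩ := h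
  -- heights
  have ht : ∀ i t s, 0 < t → t < 1 → 0 < (F i (t, s)).1.2 ∧ (F i (t, s)).1.2 < 1 := by
    intro i t s ht0 ht1
    rcases le_or_gt s 0 with hs | hs
    · rw [h0 i t s (by linarith)]
      exact (L.inside i t ht0 ht1).2
    · rcases lt_or_ge s 1 with hs1 | hs1
      · exact (hin i t s ht0 ht1 hs hs1).1.2
      · rw [h1 i t s (by linarith)]
        exact (L'.inside i t ht0 ht1).2
  have hs4 : ∀ i t s, 0 < s → s < 1 → 0 < (F i (t, s)).2 ∧ (F i (t, s)).2 < 1 := by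
    intro i t s hs0 hs1
    rcases le_or_gt t 0 with ht0 | ht0
    · rw [he i t s (Or.inl (by linarith))]
      exact ⟨hs0, hs1⟩
    · rcases lt_or_ge t 1 with ht1 | ht1
      · exact (hin i t s ht0 ht1 hs0 hs1).2
      · rw [he i t s (Or.inr (by linarith))]
        exact ⟨hs0, hs1⟩
  have hlow : ∀ i t s, t ≤ 0 → F i (t, s) = ((pts 3 i, t), s) := fun i t s h => he i t s (Or.inl (by linarith))
  have hup : ∀ i t s, 1 ≤ t → F i (t, s) = ((pts 3 i, t), s) := fun i t s h => he i t s (Or.inr (by linarith))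
  have hle : ∀ i t s, t ≤ 1 → (F i (t, s)).1.2 ≤ 1 := by
    intro i t s h
    rcases le_or_gt t 0 with ht0 | ht0
    · rw [hlow i t s ht0]; exact h
    · rcases h.lt_or_eq with h2 | h2
      · exact (ht i t s ht0 h2).2.le
      · rw [hup i t s (by linarith)]; exact h
  have hge : ∀ i t s, 0 ≤ t → 0 ≤ (F i (t, s)).1.2 := by
    intro i t s h
    rcases lt_or_ge t 1 with ht1 | ht1
    · rcases h.eq_or_lt with h2 | h2
      · rw [hlow i t s (by linarith)]; exact h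
      · exact (ht i t s h2 ht1).1.le
    · rw [hup i t s ht1]; exact h
  have hxlow : ∀ i t s, (F i (t, s)).1.2 < 0 → F i (t, s) = ((pts 3 i, t), s) := by
    intro i t s h
    rcases le_or_gt t 0 with ht0 | ht0
    · exact hlow i t s ht0
    · exact absurd (hge i t s ht0.le) (not_le.2 h)
  have hxup : ∀ i t s, 1 < (F i (t, s)).1.2 → F i (t, s) = ((pts 3 i, t), s) := by
    intro i t s h
    rcases le_or_gt t 1 with ht0 | ht0
    · exact absurd (hle i t s ht0) (not_le.2 h)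
    · exact hup i t s ht0.le
  -- local descriptions
  have g0 : ∀ t s, t < 5 / 4 → CC_G F (t, s) = F 0 (t, s) := by
    intro t s h
    rcases le_or_gt t 1 with h2 | h2
    · exact CC_A h2
    · rw [CC_B h2 (by linarith), hup 0 t s h2.le, Zl t h.le, CC_p0]
  have g2 : ∀ t s, 7 / 4 < t → t < 13 / 4 → CC_G F (t, s) = F 1 (3 - t, s) := by
    intro t s h h'
    rcases CC_reg t with h2 | h2 | h2 | h2 | h2
    · linarith
    · rw [CC_B h2.1 h2.2, hup 1 (3 - t) s (by linarith), Zm t h.le h'.le, CC_p1]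
    · exact CC_C h2.1 h2.2
    · rw [CC_D h2.1 h2.2, hlow 1 (3 - t) s (by linarith), Zm t h.le h'.le, CC_p1]
    · linarith
  have g4 : ∀ t s, 15 / 4 < t → CC_G F (t, s) = F 2 (t - 4, s) := by
    intro t s h
    rcases lt_or_ge t 4 with h2 | h2
    · rw [CC_D (by linarith) h2, hlow 2 (t - 4) s (by linarith), Zr t h.le, CC_p2]
    · exact CC_E h2
  have n0 : ∀ q : ℝ × ℝ, q.1 < 5 / 4 → F 0 =ᶠ[𝓝 q] CC_G F := fun q hq => by
    have : {q : ℝ × ℝ | q.1 < 5 / 4} ∈ 𝓝 q := (isOpen_lt continuous_fst continuous_const).mem_nhds hq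
    filter_upwards [this] with r hr using (g0 r.1 r.2 hr).symm
  have n1 : ∀ q : ℝ × ℝ, 1 < q.1 → q.1 < 2 → (fun q : ℝ × ℝ => ((zig q.1, q.2) : R4)) =ᶠ[𝓝 q] CC_G F :=
    fun q hq hq' => by
    have a1 : {q : ℝ × ℝ | 1 < q.1} ∈ 𝓝 q := (isOpen_lt continuous_const continuous_fst).mem_nhds hq
    have a2 : {q : ℝ × ℝ | q.1 < 2} ∈ 𝓝 q := (isOpen_lt continuous_fst continuous_const).mem_nhds hq'
    filter_upwards [a1, a2] with r hr hr' using (CC_B (s := r.2) hr hr').symm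
  have n2 : ∀ q : ℝ × ℝ, 7 / 4 < q.1 → q.1 < 13 / 4 → (fun q : ℝ × ℝ => F 1 (3 - q.1, q.2)) =ᶠ[𝓝 q] CC_G F :=
    fun q hq hq' => by
    have a1 : {q : ℝ × ℝ | 7 / 4 < q.1} ∈ 𝓝 q := (isOpen_lt continuous_const continuous_fst).mem_nhds hq
    have a2 : {q : ℝ × ℝ | q.1 < 13 / 4} ∈ 𝓝 q := (isOpen_lt continuous_fst continuous_const).mem_nhds hq'
    filter_upwards [a1, a2] with r hr hr' using (g2 r.1 r.2 hr hr').symm
  have n3 : ∀ q : ℝ × ℝ, 3 < q.1 → q.1 < 4 → (fun q : ℝ × ℝ => ((zig q.1, q.2) : R4)) =ᶠ[𝓝 q] CC_G F :=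
    fun q hq hq' => by
    have a1 : {q : ℝ × ℝ | 3 < q.1} ∈ 𝓝 q := (isOpen_lt continuous_const continuous_fst).mem_nhds hq
    have a2 : {q : ℝ × ℝ | q.1 < 4} ∈ 𝓝 q := (isOpen_lt continuous_fst continuous_const).mem_nhds hq'
    filter_upwards [a1, a2] with r hr hr' using (CC_D (s := r.2) hr hr').symm
  have n4 : ∀ q : ℝ × ℝ, 15 / 4 < q.1 → (fun q : ℝ × ℝ => F 2 (q.1 - 4, q.2)) =ᶠ[𝓝 q] CC_G F := fun q hq => by
    have : {q : ℝ × ℝ | 15 / 4 < q.1} ∈ 𝓝 q := (isOpen_lt continuous_const continuous_fst).mem_nhds hq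
    filter_upwards [this] with r hr using (g4 r.1 r.2 hr).symm
  have sz : ContDiff ℝ ∞ (fun q : ℝ × ℝ => zig q.1) := Zs.comp contDiff_fst
  have sZ : ContDiff ℝ ∞ (fun q : ℝ × ℝ => ((zig q.1, q.2) : R4)) := sz.prodMk contDiff_snd
  have iZ : ∀ q : ℝ × ℝ, Function.Injective (fderiv ℝ (fun q : ℝ × ℝ => ((zig q.1, q.2) : R4)) q) := fun q =>
    fd_prod (h := fun q : ℝ × ℝ => zig q.1) (smooth_diff sz q) (fd_deriv (Zi q.1))
  have sb : ContDiff ℝ ∞ (fun q : ℝ × ℝ => ((3 - q.1, q.2) : ℝ × ℝ)) := by fun_prop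
  have sc : ContDiff ℝ ∞ (fun q : ℝ × ℝ => ((q.1 - 4, q.2) : ℝ × ℝ)) := by fun_prop
  have i1 : ∀ q : ℝ × ℝ, Function.Injective (fderiv ℝ (fun q : ℝ × ℝ => F 1 (3 - q.1, q.2)) q) := fun q =>
    fd_comp (g := F 1) (f := fun q : ℝ × ℝ => ((3 - q.1, q.2) : ℝ × ℝ)) (x := q) (smooth_diff (hF 1) _)
      (smooth_diff sb _) (hI 1 _) (fd_leftInv (g := fun q : ℝ × ℝ => ((3 - q.1, q.2) : ℝ × ℝ)) (smooth_diff sb _)
        (smooth_diff sb _) (fun y => by simp))
  have i2 : ∀ q : ℝ × ℝ, Function.Injective (fderiv ℝ (fun q : ℝ × ℝ => F 2 (q.1 - 4, q.2)) q) := fun q =>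
    fd_comp (g := F 2) (f := fun q : ℝ × ℝ => ((q.1 - 4, q.2) : ℝ × ℝ)) (x := q) (smooth_diff (hF 2) _)
      (smooth_diff sc _) (hI 2 _) (fd_leftInv (g := fun q : ℝ × ℝ => ((q.1 + 4, q.2) : ℝ × ℝ)) (by fun_prop)
        (smooth_diff sc _) (fun y => by simp))
  have key : ∀ t t' s s', t ≤ t' → CC_G F (t, s) = CC_G F (t', s') → (t, s) = (t', s') := by
    intro t t' s s' htt hq
    rcases CC_reg t with r | r | r | r | r <;> rcases CC_reg t' with r' | r' | r' | r' | r'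
    -- A
    · rw [CC_A r, CC_A r'] at hq
      exact (hinj _ _ _ _ hq).2
    · rw [CC_A r, CC_B r'.1 r'.2] at hq
      have a := hle 0 t s r
      rw [hq] at a
      exact absurd a (not_le.2 (Zcap t' r'.1 r'.2).1)
    · rw [CC_A r, CC_C r'.1 r'.2] at hq
      exact absurd (hinj _ _ _ _ hq).1 (by decide)
    · rw [CC_A r, CC_D r'.1 r'.2] at hq
      have a := hxlow 0 t s (by rw [hq]; exact (Zcup t' r'.1 r'.2).2.1)
      rw [a] at hq
      have b : (-1 / 2 : ℝ) = (zig t').1.1 := congrArg (fun y : R4 => y.1.1.1) hq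
      have c := (Zcup t' r'.1 r'.2).2.2.1
      rw [← b] at c
      norm_num at c
    · rw [CC_A r, CC_E r'] at hq
      exact absurd (hinj _ _ _ _ hq).1 (by decide)
    -- B
    · exfalso; linarith [r.1]
    · rw [CC_B r.1 r.2, CC_B r'.1 r'.2] at hq
      have a : zig t = zig t' := congrArg (fun y : R4 => y.1) hq
      have b : s = s' := congrArg (fun y : R4 => y.2) hq
      rw [Zinj a, b]
    · rw [CC_B r.1 r.2, CC_C r'.1 r'.2] at hq
      have a := hle 1 (3 - t') s' (by linarith)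
      rw [← hq] at a
      exact absurd a (not_le.2 (Zcap t r.1 r.2).1)
    · rw [CC_B r.1 r.2, CC_D r'.1 r'.2] at hq
      have a : (zig t).2 = (zig t').2 := congrArg (fun y : R4 => y.1.2) hq
      linarith [(Zcap t r.1 r.2).1, (Zcup t' r'.1 r'.2).2.1]
    · rw [CC_B r.1 r.2, CC_E r'] at hq
      have a := hxup 2 (t' - 4) s' (by rw [← hq]; exact (Zcap t r.1 r.2).1)
      rw [a] at hq
      have b : (zig t).1.1 = (1 / 2 : ℝ) := congrArg (fun y : R4 => y.1.1.1) hq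
      have c := (Zcap t r.1 r.2).2.2.2
      rw [b] at c
      norm_num at c
    -- C
    · exfalso; linarith [r.1]
    · exfalso; linarith [r.1, r'.2]
    · rw [CC_C r.1 r.2, CC_C r'.1 r'.2] at hq
      have a := (hinj _ _ _ _ hq).2
      have b : 3 - t = 3 - t' := congrArg Prod.fst a
      have c : s = s' := congrArg Prod.snd a
      rw [c, show t = t' by linarith]
    · rw [CC_C r.1 r.2, CC_D r'.1 r'.2] at hq
      have a := hge 1 (3 - t) s (by linarith)
      rw [hq] at a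
      exact absurd a (not_le.2 (Zcup t' r'.1 r'.2).2.1)
    · rw [CC_C r.1 r.2, CC_E r'] at hq
      exact absurd (hinj _ _ _ _ hq).1 (by decide)
    -- D
    · exfalso; linarith [r.1]
    · exfalso; linarith [r.1, r'.2]
    · exfalso; linarith [r.1, r'.2]
    · rw [CC_D r.1 r.2, CC_D r'.1 r'.2] at hq
      have a : zig t = zig t' := congrArg (fun y : R4 => y.1) hq
      have b : s = s' := congrArg (fun y : R4 => y.2) hq
      rw [Zinj a, b]
    · rw [CC_D r.1 r.2, CC_E r'] at hq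
      have a := hge 2 (t' - 4) s' (by linarith)
      rw [← hq] at a
      exact absurd a (not_le.2 (Zcup t r.1 r.2).2.1)
    -- E
    · exfalso; linarith
    · exfalso; linarith [r'.2]
    · exfalso; linarith [r'.2]
    · exfalso; linarith [r'.2]
    · rw [CC_E r, CC_E r'] at hq
      have a := (hinj _ _ _ _ hq).2
      have b : t - 4 = t' - 4 := congrArg Prod.fst a
      have c : s = s' := congrArg Prod.snd a
      rw [c, show t = t' by linarith]
  refine ⟨CC_G F, ?_, ?_, ?_, ?_, δ, hδ, ?_, ?_, 5, ?_⟩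
  · rw [contDiff_iff_contDiffAt]
    intro q
    rcases CC_reg' q.1 with r | r | r | r | r
    · exact (hF 0).contDiffAt.congr_of_eventuallyEq (n0 q r).symm
    · exact sZ.contDiffAt.congr_of_eventuallyEq (n1 q r.1 r.2).symm
    · exact ((hF 1).comp sb).contDiffAt.congr_of_eventuallyEq (n2 q r.1 r.2).symm
    · exact sZ.contDiffAt.congr_of_eventuallyEq (n3 q r.1 r.2).symm
    · exact ((hF 2).comp sc).contDiffAt.congr_of_eventuallyEq (n4 q r).symm
  · intro q
    rcases CC_reg' q.1 with r | r | r | r | r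
    · exact fd_congr (n0 q r) (hI 0 q)
    · exact fd_congr (n1 q r.1 r.2) (iZ q)
    · exact fd_congr (n2 q r.1 r.2) (i1 q)
    · exact fd_congr (n3 q r.1 r.2) (iZ q)
    · exact fd_congr (n4 q r) (i2 q)
  · rintro ⟨t, s⟩ ⟨t', s'⟩ hq
    rcases le_total t t' with h | h
    · exact key t t' s s' h hq
    · exact (key t' t s' s h hq.symm).symm
  · intro t s hs0 hs1
    rcases CC_reg t with r | r | r | r | r
    · rw [CC_A r]; exact hs4 0 t s hs0 hs1
    · rw [CC_B r.1 r.2]; exact ⟨hs0, hs1⟩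
    · rw [CC_C r.1 r.2]; exact hs4 1 _ s hs0 hs1
    · rw [CC_D r.1 r.2]; exact ⟨hs0, hs1⟩
    · rw [CC_E r]; exact hs4 2 _ s hs0 hs1
  · intro t s hs
    simp only [CC_G, closF]
    split_ifs
    · exact h0 0 t s hs
    · rfl
    · exact h0 1 _ s hs
    · rfl
    · exact h0 2 _ s hs
  · intro t s hs
    simp only [CC_G, closF]
    split_ifs
    · exact h1 0 t s hs
    · rfl
    · exact h1 1 _ s hs
    · rfl
    · exact h1 2 _ s hs
  · intro t s ht
    rcases le_abs.1 ht with h | h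
    · rw [CC_E (by linarith), hup 2 (t - 4) s (by linarith), Zr t (by linarith), CC_p2]
    · rw [CC_A (by linarith), hlow 0 t s (by linarith), Zl t (by linarith), CC_p0]

/-- reflexivity of concordance -/
theorem CC_refl {m : ℕ} {p : Fin m → R2} (L : SL m p) : SmConc L L := by
  obtain ⟨δ, hδ, he⟩ := L.ends
  refine ⟨fun i q => (L.f i q.1, q.2), fun i => ?_, fun i q => ?_, ?_, ?_, δ, hδ, fun i t s _ => rfl,
    fun i t s _ => rfl, fun i t s ht => ?_⟩
  · exact ((L.smooth i).comp contDiff_fst).prodMk contDiff_snd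
  · exact fd_prod (h := fun q : ℝ × ℝ => L.f i q.1) (smooth_diff ((L.smooth i).comp contDiff_fst) q)
      (fd_deriv (L.imm i q.1))
  · rintro i j ⟨t, s⟩ ⟨t', s'⟩ hq
    have a : L.f i t = L.f j t' := congrArg (fun y : R4 => y.1) hq
    have b : s = s' := congrArg (fun y : R4 => y.2) hq
    obtain ⟨c, d⟩ := L.inj i j t t' a
    exact ⟨c, by rw [b, d]⟩
  · intro i t s ht0 ht1 hs0 hs1
    exact ⟨L.inside i t ht0 ht1, hs0, hs1⟩
  · simp only [he i t ht]

/-- the data of a long knot from a concordance -/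
theorem CC_long {K K' : ℝ → R3} (h : LConc K K') : ContDiff ℝ ∞ K ∧ (∀ t, deriv K t ≠ 0) ∧
    Function.Injective K ∧ ∃ M, ∀ t, M ≤ |t| → K t = zig t := by
  obtain ⟨F, hF, hI, hinj, hin, δ, hδ, h0, h1, M, hM⟩ := h
  have sa : ContDiff ℝ ∞ (fun t : ℝ => ((t, 0) : ℝ × ℝ)) := by fun_prop
  have e : K = fun t => (F (t, 0)).1 := funext fun t => by rw [h0 t 0 hδ.le]
  have e' : (fun t => F (t, 0)) = fun t => (K t, 0) := funext fun t => h0 t 0 hδ.le
  have sK : ContDiff ℝ ∞ K := by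
    rw [e]
    exact contDiff_fst.comp (hF.comp sa)
  refine ⟨sK, fun t => ?_, ?_, M, fun t ht => ?_⟩
  · have i1 : Function.Injective (fderiv ℝ (fun t => F (t, 0)) t) :=
      fd_comp (g := F) (f := fun t : ℝ => ((t, 0) : ℝ × ℝ)) (x := t) (smooth_diff hF _) (smooth_diff sa _) (hI _)
        (fd_leftInv (g := fun q : ℝ × ℝ => q.1) (by fun_prop) (smooth_diff sa _) (fun y => rfl))
    rw [e'] at i1
    have i2 := deriv_fd i1
    have i3 : HasDerivAt (fun t => ((K t, 0) : R4)) (deriv K t, 0) t :=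
      (smooth_diff sK t).hasDerivAt.prodMk (hasDerivAt_const t (0 : ℝ))
    rw [i3.deriv] at i2
    intro hc
    exact i2 (by rw [hc]; rfl)
  · intro t t' hq
    have : F (t, 0) = F (t', 0) := by
      rw [h0 t 0 hδ.le, h0 t' 0 hδ.le, hq]
    exact congrArg Prod.fst (hinj this)
  · have a : K t = (F (t, 0)).1 := congrFun e t
    rw [a, hM t 0 ht]

/-- CL: the closure of a string link is a long knot -/
theorem CL (L : SL 3 (pts 3)) : ContDiff ℝ ∞ (closF L) ∧ (∀ t, deriv (closF L) t ≠ 0) ∧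
    Function.Injective (closF L) ∧ ∃ M, ∀ t, M ≤ |t| → closF L t = zig t := CC_long (CC (CC_refl L))

end Pool.Agent.helper94.SLK
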