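import Mathlib

/-!
# String links, concordance and the zigzag closure (MP_d0cbcd_gt): definitions

Coordinates: the plane `ℝ²`, 3-space = plane times height, 4-space = 3-space times the direction of concordances.
Arcs and surfaces are standard (products) near the boundary and are given with their standard extension beyond
`[0, 1]`.
-/

open Set Filter
open scoped ContDiff

namespace Pool.Agent.helper94.SLK

abbrev R2 := ℝ × ℝ
abbrev R3 := R2 × ℝ
abbrev R4 := R3 × ℝ

/-- the open unit disk, the interior of `D²` -/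
def disk : Set R2 := {x | x.1 ^ 2 + x.2 ^ 2 < 1}

/-- the interior of `D² × [0,1]` -/
def cyl3 : Set R3 := {x | x.1 ∈ disk ∧ 0 < x.2 ∧ x.2 < 1}

/-- the interior of `D² × [0,1] × [0,1]` -/
def cyl4 : Set R4 := {x | x.1 ∈ cyl3 ∧ 0 < x.2 ∧ x.2 < 1}

/-- `m`-component string links in `D² × [0,1]` with end points `p i`: smooth proper embeddings of `m` arcs, vertical
near the ends (and extended vertically) -/
structure SL (m : ℕ) (p : Fin m → R2) where
  f : Fin m → ℝ → R3
  smooth : ∀ i, ContDiff ℝ ∞ (f i)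
  imm : ∀ i t, deriv (f i) t ≠ 0
  inj : ∀ i j s t, f i s = f j t → i = j ∧ s = t
  inside : ∀ i t, 0 < t → t < 1 → f i t ∈ cyl3
  ends : ∃ δ > 0, ∀ i t, (t ≤ δ ∨ 1 - δ ≤ t) → f i t = (p i, t)

/-- smooth concordance of string links: smooth proper embedding of `m` copies of `[0,1] × [0,1]` (parameters `(t, s)`)
into `D² × [0,1] × [0,1]`, standard near the boundary (and extended in the standard way) -/
def SmConc {m : ℕ} {p : Fin m → R2} (L L' : SL m p) : Prop :=
  ∃ F : Fin m → ℝ × ℝ → R4,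
    (∀ i, ContDiff ℝ ∞ (F i)) ∧ (∀ i q, Function.Injective (fderiv ℝ (F i) q)) ∧
    (∀ i j q r, F i q = F j r → i = j ∧ q = r) ∧
    (∀ i t s, 0 < t → t < 1 → 0 < s → s < 1 → F i (t, s) ∈ cyl4) ∧
    ∃ δ > 0, (∀ i t s, s ≤ δ → F i (t, s) = (L.f i t, s)) ∧
      (∀ i t s, 1 - δ ≤ s → F i (t, s) = (L'.f i t, s)) ∧
      ∀ i t s, (t ≤ δ ∨ 1 - δ ≤ t) → F i (t, s) = ((p i, t), s)

/-- locally flat surfaces in 4-space -/
def LocFlat {m : ℕ} (F : Fin m → ℝ × ℝ → R4) : Prop :=
  ∀ i q, ∃ e : OpenPartialHomeomorph R4 (R2 × R2), F i q ∈ e.source ∧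
    ∀ x ∈ e.source, (∃ j r, F j r = x) ↔ (e x).2 = 0

/-- topological (locally flat) concordance of string links -/
def TopConc {m : ℕ} {p : Fin m → R2} (L L' : SL m p) : Prop :=
  ∃ F : Fin m → ℝ × ℝ → R4,
    (∀ i, Continuous (F i)) ∧ LocFlat F ∧
    (∀ i j q r, F i q = F j r → i = j ∧ q = r) ∧
    (∀ i t s, 0 < t → t < 1 → 0 < s → s < 1 → F i (t, s) ∈ cyl4) ∧
    ∃ δ > 0, (∀ i t s, s ≤ δ → F i (t, s) = (L.f i t, s)) ∧
      (∀ i t s, 1 - δ ≤ s → F i (t, s) = (L'.f i t, s)) ∧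
      ∀ i t s, (t ≤ δ ∨ 1 - δ ≤ t) → F i (t, s) = ((p i, t), s)

/-! ## Stacking -/

/-- compression to the lower half -/
noncomputable def lo (x : R3) : R3 := (x.1, x.2 / 2)

/-- compression to the upper half -/
noncomputable def hi (x : R3) : R3 := (x.1, (x.2 + 1) / 2)

/-- the arcs of the stacked string link, `X` below `Y` -/
noncomputable def stackF {m : ℕ} {p : Fin m → R2} (X Y : SL m p) (i : Fin m) (t : ℝ) : R3 :=
  if t ≤ 1 / 2 then lo (X.f i (2 * t)) else hi (Y.f i (2 * t - 1))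

/-! ## Framed string knots -/

/-- the open solid tube of radius `3/4` -/
def tube : Set R3 := {x | x.1.1 ^ 2 + x.1.2 ^ 2 < 9 / 16}

/-- framed string knots: smooth embeddings of the tube into `D² × ℝ`, equal to the identity except for heights
between `1/4` and `3/4`, where the tube runs inside `D² × (1/4, 3/4)` -/
structure FK where
  φ : R3 → R3
  smooth : ContDiffOn ℝ ∞ φ tube
  imm : ∀ x ∈ tube, Function.Injective (fderiv ℝ φ x)
  inj : Set.InjOn φ tube
  inside : ∀ x ∈ tube, 1 / 4 < x.2 → x.2 < 3 / 4 → (φ x).1 ∈ disk ∧ 1 / 4 < (φ x).2 ∧ (φ x).2 < 3 / 4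
  ends : ∀ x ∈ tube, (x.2 ≤ 1 / 4 ∨ 3 / 4 ≤ x.2) → φ x = x

/-- the framed string knot is topologically slice: there is a concordance to the trivial framed string knot in the
topological category, with a tube around it -/
def FK.TopSlice (J : FK) : Prop :=
  ∃ e : OpenPartialHomeomorph R4 R4, e.source = {y | y.1 ∈ tube} ∧
    (∀ x ∈ tube, ∀ s, 0 < x.2 → x.2 < 1 → 0 < s → s < 1 → e (x, s) ∈ cyl4) ∧
    (∀ x ∈ tube, ∀ s, s ≤ 1 / 4 → e (x, s) = (J.φ x, s)) ∧
    (∀ x ∈ tube, ∀ s, 3 / 4 ≤ s → e (x, s) = (x, s)) ∧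
    ∀ x ∈ tube, ∀ s, (x.2 ≤ 1 / 4 ∨ 3 / 4 ≤ x.2) → e (x, s) = (x, s)

/-! ## Tying strands -/

/-- the end points of the strands: `(-1/2, 0)`, `(0, 0)`, `(1/2, 0)`, and then `(0, 2/3)`, `(0, 3/4)`, `(0, 4/5)`, … -/
noncomputable def P : ℕ → R2
  | 0 => (-1 / 2, 0)
  | 1 => (0, 0)
  | 2 => (1 / 2, 0)
  | k + 3 => (0, 1 - 1 / ((k : ℝ) + 3))

/-- the end points of the strands of `m`-component string links -/
noncomputable def pts (m : ℕ) (i : Fin m) : R2 := P i

/-- the disk of radius `1/2` around `(c, 0)` -/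
noncomputable def sc (c : ℝ) (x : R3) : R3 := ((c + x.1.1 / 2, x.1.2 / 2), x.2)

/-- the trivial string link -/
noncomputable def trivF (m : ℕ) (i : Fin m) (t : ℝ) : R3 := (pts m i, t)

/-- the strands `a`, `b` run in parallel through the tube of `J`, placed in the disk of radius `1/2` around `(c, 0)`; the
other strands are vertical -/
noncomputable def tieF (c : ℝ) (a b m : ℕ) (J : FK) (i : Fin m) (t : ℝ) : R3 :=
  if (i : ℕ) = a then sc c (J.φ ((-1 / 2, 0), t)) else
    if (i : ℕ) = b then sc c (J.φ ((1 / 2, 0), t)) else (pts m i, t)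

/-! ## The zigzag closure -/

/-- smooth steps -/
noncomputable def st1 (t : ℝ) : ℝ := Real.smoothTransition (2 * t - 5 / 2)
noncomputable def st2 (t : ℝ) : ℝ := Real.smoothTransition (2 * t - 13 / 2)

/-- the planar zigzag: up the first strand (`t ≤ 1`), a cap (`1 ≤ t ≤ 2`), down the second strand (`2 ≤ t ≤ 3`), a cup
(`3 ≤ t ≤ 4`), up the third strand (`4 ≤ t`) -/
noncomputable def zx (t : ℝ) : ℝ := -1 / 2 + st1 t / 2 + st2 t / 2
noncomputable def zz (t : ℝ) : ℝ := t + st1 t * (3 - 2 * t) + st2 t * (2 * t - 7)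
noncomputable def zig (t : ℝ) : R3 := ((zx t, 0), zz t)

/-- long knots: smooth proper embeddings of the line in 3-space that agree with the zigzag outside a compact set -/
structure LK where
  K : ℝ → R3
  smooth : ContDiff ℝ ∞ K
  imm : ∀ t, deriv K t ≠ 0
  inj : Function.Injective K
  ends : ∃ M, ∀ t, M ≤ |t| → K t = zig t

/-- smooth concordance of long knots, in `ℝ³ × [0,1]`, standard near infinity and near the boundary -/
def LConc (K K' : ℝ → R3) : Prop :=
  ∃ F : ℝ × ℝ → R4, ContDiff ℝ ∞ F ∧ (∀ q, Function.Injective (fderiv ℝ F q)) ∧ Function.Injective F ∧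
    (∀ t s, 0 < s → s < 1 → 0 < (F (t, s)).2 ∧ (F (t, s)).2 < 1) ∧
    ∃ δ > 0, (∀ t s, s ≤ δ → F (t, s) = (K t, s)) ∧ (∀ t s, 1 - δ ≤ s → F (t, s) = (K' t, s)) ∧
      ∃ M, ∀ t s, M ≤ |t| → F (t, s) = (zig t, s)

/-- the closure of a 3-component string link: the three strands are joined by the cap and the cup of the zigzag -/
noncomputable def closF (L : SL 3 (pts 3)) (t : ℝ) : R3 :=
  if t ≤ 1 then L.f 0 t else if t < 2 then zig t else if t ≤ 3 then L.f 1 (3 - t) else
    if t < 4 then zig t else L.f 2 (t - 4)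

end Pool.Agent.helper94.SLK
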