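import Pool.Agent.helper94.SLK.Spec

/-! # Module HT: the compression of heights -/

open Set Filter
open scoped ContDiff

namespace Pool.Agent.helper94.SLK

theorem HT_smooth : ContDiff ℝ ∞ ht := by
  have h1 : ContDiff ℝ ∞ (fun z : ℝ => Real.smoothTransition ((z - 1 / 2) ^ 2 - 9 / 4)) :=
    Real.smoothTransition.contDiff.comp (by fun_prop)
  unfold ht
  fun_prop

theorem HT_deriv (z : ℝ) : 0 < deriv ht z := by
  have h1 : HasDerivAt (fun t : ℝ => (t - 1 / 2) ^ 2 - 9 / 4) (2 * (z - 1 / 2)) z := by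
    have := (((hasDerivAt_id z).sub_const (1 / 2)).pow 2).sub_const (9 / 4)
    exact this.congr_deriv (by simp)
  have h2 : HasDerivAt Real.smoothTransition (deriv Real.smoothTransition ((z - 1 / 2) ^ 2 - 9 / 4))
      ((z - 1 / 2) ^ 2 - 9 / 4) :=
    ((Real.smoothTransition.contDiff (n := 1)).differentiable (by norm_num) _).hasDerivAt
  have h3 := HasDerivAt.comp (h₂ := Real.smoothTransition) (h := fun t : ℝ => (t - 1 / 2) ^ 2 - 9 / 4) z h2 h1
  have h4 := (((hasDerivAt_id z).sub_const (1 / 2)).mul ((h3.const_mul (19 / 20)).const_add (1 / 20))).const_add (1 / 2)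
  have h5 : HasDerivAt ht _ z := h4
  rw [h5.deriv]
  have a1 : 0 ≤ deriv Real.smoothTransition ((z - 1 / 2) ^ 2 - 9 / 4) := Real.smoothTransition.monotone.deriv_nonneg
  have a2 : 0 ≤ Real.smoothTransition ((z - 1 / 2) ^ 2 - 9 / 4) := Real.smoothTransition.nonneg _
  simp only [id, Function.comp]
  have a3 := mul_nonneg a1 (sq_nonneg (z - 1 / 2))
  nlinarith

theorem HT_far {z : ℝ} (h : 3 ≤ |z|) : ht z = z := by
  have h1 : 1 ≤ (z - 1 / 2) ^ 2 - 9 / 4 := by
    rcases le_abs.1 h with h | h <;> nlinarith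
  unfold ht
  rw [Real.smoothTransition.one_of_one_le h1]
  ring

theorem HT_near {z : ℝ} (h : -1 ≤ z) (h' : z ≤ 2) : 3 / 8 < ht z ∧ ht z < 5 / 8 := by
  have h1 : (z - 1 / 2) ^ 2 - 9 / 4 ≤ 0 := by nlinarith
  unfold ht
  rw [Real.smoothTransition.zero_of_nonpos h1]
  constructor <;> linarith

theorem HT_m (z : ℝ) : 0 < 1 / 20 + 19 / 20 * Real.smoothTransition ((z - 1 / 2) ^ 2 - 9 / 4) := by
  have a2 : 0 ≤ Real.smoothTransition ((z - 1 / 2) ^ 2 - 9 / 4) := Real.smoothTransition.nonneg _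
  linarith

theorem HT : HT_stmt := by
  refine ⟨HT_smooth, HT_deriv, fun z h => HT_far h, fun z h h' => HT_near h h', ?_, ?_⟩
  · intro z hz
    have := mul_pos (sub_pos.2 hz) (HT_m z)
    unfold ht
    linarith
  · intro z hz
    have := mul_pos (sub_pos.2 hz) (HT_m z)
    unfold ht
    nlinarith

end Pool.Agent.helper94.SLK
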