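import Pool.Agent.helper94.SLK.TI
import Pool.Agent.helper94.SLK.CC
import Pool.Agent.helper94.SLK.HT

/-! # The two tubes -/

open Set Filter
open scoped ContDiff Topology

namespace Pool.Agent.helper94.SLK

/-- a tube around `(c, 0)`, in the lower (`k = 0`) or upper (`k = 1`) half -/
noncomputable def gg (c k : ℝ) (J : FK) (x : R3) : R3 :=
  ((sc c (J.φ (rc c (x.1, 2 * x.2 - k)))).1, ((sc c (J.φ (rc c (x.1, 2 * x.2 - k)))).2 + k) / 2)

theorem gg_gu (J : FK) : gu J = gg (-1 / 4) 1 J := rfl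

theorem gg_gl (J : FK) : gl J = gg (1 / 4) 0 J := by
  funext x
  simp only [gl, gg, lo, sub_zero, add_zero]

theorem gg_tube {c k : ℝ} {x : R3} (hx : rho c x < 9 / 64) : rc c (x.1, 2 * x.2 - k) ∈ tube := by
  have h : (x.1.1 - c) ^ 2 + x.1.2 ^ 2 < 9 / 64 := hx
  show (2 * (x.1.1 - c)) ^ 2 + (2 * x.1.2) ^ 2 < 9 / 16
  nlinarith

theorem gg_cd {c k : ℝ} (J : FK) {x : R3} (hx : rho c x < 9 / 64) : ContDiffAt ℝ ∞ (gg c k J) x ∧
    Function.Injective (fderiv ℝ (gg c k J) x) := by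
  have s1 : ContDiff ℝ ∞ (fun x : R3 => ((x.1, 2 * x.2 - k) : R3)) := by fun_prop
  have s2 : ContDiff ℝ ∞ (fun x : R3 => ((x.1, (x.2 + k) / 2) : R3)) := by fun_prop
  have f1 := fd_leftInv (f := fun x : R3 => ((x.1, 2 * x.2 - k) : R3)) (x := x)
    (g := fun x : R3 => ((x.1, (x.2 + k) / 2) : R3)) (smooth_diff s2 _) (smooth_diff s1 _) (fun y => by simp)
  have s3 : ContDiff ℝ ∞ (fun x : R3 => rc c ((x.1, 2 * x.2 - k) : R3)) := (TI_rc_smooth c).comp s1
  have f3 : Function.Injective (fderiv ℝ (fun x : R3 => rc c ((x.1, 2 * x.2 - k) : R3)) x) :=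
    fd_comp (g := rc c) (f := fun x : R3 => ((x.1, 2 * x.2 - k) : R3)) (x := x) (smooth_diff (TI_rc_smooth c) _)
      (smooth_diff s1 _) (TI_rc_fd c _) f1
  have s4 : ContDiffAt ℝ ∞ J.φ (rc c ((x.1, 2 * x.2 - k) : R3)) :=
    J.smooth.contDiffAt (TI_tube_open.mem_nhds (gg_tube hx))
  have s5 : ContDiffAt ℝ ∞ (fun x : R3 => J.φ (rc c ((x.1, 2 * x.2 - k) : R3))) x :=
    ContDiffAt.comp (g := J.φ) (f := fun x : R3 => rc c ((x.1, 2 * x.2 - k) : R3)) x s4 s3.contDiffAt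
  have f5 : Function.Injective (fderiv ℝ (fun x : R3 => J.φ (rc c ((x.1, 2 * x.2 - k) : R3))) x) :=
    fd_comp (g := J.φ) (f := fun x : R3 => rc c ((x.1, 2 * x.2 - k) : R3)) (x := x) (s4.differentiableAt (by norm_num))
      (smooth_diff s3 _) (J.imm _ (gg_tube hx)) f3
  have s6 : ContDiffAt ℝ ∞ (fun x : R3 => sc c (J.φ (rc c ((x.1, 2 * x.2 - k) : R3)))) x :=
    ContDiffAt.comp (g := sc c) (f := fun x : R3 => J.φ (rc c ((x.1, 2 * x.2 - k) : R3))) x
      (TI_sc_smooth c).contDiffAt s5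
  have f6 : Function.Injective (fderiv ℝ (fun x : R3 => sc c (J.φ (rc c ((x.1, 2 * x.2 - k) : R3)))) x) :=
    fd_comp (g := sc c) (f := fun x : R3 => J.φ (rc c ((x.1, 2 * x.2 - k) : R3))) (x := x)
      (smooth_diff (TI_sc_smooth c) _) (s5.differentiableAt (by norm_num)) (TI_sc_fd c _) f5
  refine ⟨ContDiffAt.comp (g := fun x : R3 => ((x.1, (x.2 + k) / 2) : R3))
    (f := fun x : R3 => sc c (J.φ (rc c ((x.1, 2 * x.2 - k) : R3)))) x s2.contDiffAt s6, ?_⟩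
  exact fd_comp (g := fun x : R3 => ((x.1, (x.2 + k) / 2) : R3))
    (f := fun x : R3 => sc c (J.φ (rc c ((x.1, 2 * x.2 - k) : R3)))) (x := x) (smooth_diff s2 _)
    (s6.differentiableAt (by norm_num))
    (fd_leftInv (g := fun x : R3 => ((x.1, 2 * x.2 - k) : R3)) (smooth_diff s1 _) (smooth_diff s2 _)
      (fun y => by
        refine Prod.ext rfl ?_
        simp only
        ring)) f6

theorem gg_inj {c k : ℝ} (J : FK) {x y : R3} (hx : rho c x < 9 / 64) (hy : rho c y < 9 / 64)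
    (h : gg c k J x = gg c k J y) : x = y := by
  have h1 := (Prod.ext_iff.1 h).1
  have h2 := (Prod.ext_iff.1 h).2
  simp only [gg] at h1 h2
  have h3 : sc c (J.φ (rc c (x.1, 2 * x.2 - k))) = sc c (J.φ (rc c (y.1, 2 * y.2 - k))) :=
    Prod.ext h1 (by linarith)
  have h4 := J.inj (gg_tube hx) (gg_tube hy) (TI_sc_inj c h3)
  have h5 : ((x.1, 2 * x.2 - k) : R3) = (y.1, 2 * y.2 - k) := by
    rw [← TI_rc_sc c (x.1, 2 * x.2 - k), h4, TI_rc_sc]
  have h6 : x.1 = y.1 := (Prod.ext_iff.1 h5).1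
  have h7 : 2 * x.2 - k = 2 * y.2 - k := (Prod.ext_iff.1 h5).2
  exact Prod.ext h6 (by linarith)

theorem gg_id {c k : ℝ} (J : FK) {x : R3} (hx : rho c x < 9 / 64)
    (h : 2 * x.2 - k ≤ 1 / 4 ∨ 3 / 4 ≤ 2 * x.2 - k) : gg c k J x = x := by
  simp only [gg]
  rw [J.ends _ (gg_tube hx) h, TI_rc_sc]
  refine Prod.ext rfl ?_
  simp only
  ring

theorem gg_in {c k : ℝ} (J : FK) {x : R3} (hx : rho c x < 9 / 64) (h : 1 / 4 < 2 * x.2 - k)
    (h' : 2 * x.2 - k < 3 / 4) : rho c (gg c k J x) < 1 / 4 ∧ 1 / 4 < 2 * (gg c k J x).2 - k ∧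
      2 * (gg c k J x).2 - k < 3 / 4 := by
  obtain ⟨a, b, d⟩ := J.inside _ (gg_tube hx) h h'
  set w := J.φ (rc c (x.1, 2 * x.2 - k)) with hw
  have a' : w.1.1 ^ 2 + w.1.2 ^ 2 < 1 := a
  have e1 : rho c (gg c k J x) = rho c (sc c w) := rfl
  have e2 : (gg c k J x).2 = (w.2 + k) / 2 := rfl
  rw [e1, e2, TI_rho]
  exact ⟨by linarith, by linarith, by linarith⟩

/-! ## The map with both tubes -/

theorem gm_up (J J' : FK) {x : R3} (h : 1 / 2 < x.2) (h' : rho (-1 / 4) x < 9 / 64) :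
    gm J J' x = gg (-1 / 4) 1 J x := by
  simp only [gm]
  rw [if_pos h, if_pos h', gg_gu]

theorem gm_up' (J J' : FK) {x : R3} (h : 1 / 2 < x.2) (h' : 9 / 64 ≤ rho (-1 / 4) x) :
    gm J J' x = x := by
  simp only [gm]
  rw [if_pos h, if_neg (not_lt.2 h')]

theorem gm_lo (J J' : FK) {x : R3} (h : x.2 ≤ 1 / 2) (h' : rho (1 / 4) x < 9 / 64) :
    gm J J' x = gg (1 / 4) 0 J' x := by
  simp only [gm]
  rw [if_neg (not_lt.2 h), if_pos h', gg_gl]

theorem gm_lo' (J J' : FK) {x : R3} (h : x.2 ≤ 1 / 2) (h' : 9 / 64 ≤ rho (1 / 4) x) :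
    gm J J' x = x := by
  simp only [gm]
  rw [if_neg (not_lt.2 h), if_neg (not_lt.2 h')]

theorem gm_id (J J' : FK) {x : R3} (h : x.2 ≤ 1 / 8 ∨ (3 / 8 ≤ x.2 ∧ x.2 ≤ 5 / 8) ∨ 7 / 8 ≤ x.2) :
    gm J J' x = x := by
  rcases lt_or_ge (1 / 2) x.2 with h1 | h1
  · rcases lt_or_ge (rho (-1 / 4) x) (9 / 64) with h2 | h2
    · rw [gm_up J J' h1 h2]
      apply gg_id J h2
      rcases h with h | h | h
      · exact absurd h (by linarith)
      · exact Or.inl (by linarith [h.2])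
      · exact Or.inr (by linarith)
    · exact gm_up' J J' h1 h2
  · rcases lt_or_ge (rho (1 / 4) x) (9 / 64) with h2 | h2
    · rw [gm_lo J J' h1 h2]
      apply gg_id J' h2
      rcases h with h | h | h
      · exact Or.inl (by linarith)
      · exact Or.inr (by linarith [h.1])
      · exact absurd h (by linarith)
    · exact gm_lo' J J' h1 h2

theorem rho_open (c r : ℝ) : IsOpen {x : R3 | rho c x < r} := by
  unfold rho
  apply isOpen_lt <;> fun_prop

theorem rho_open' (c r : ℝ) : IsOpen {x : R3 | r < rho c x} := by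
  unfold rho
  apply isOpen_lt <;> fun_prop

theorem h_open (r : ℝ) : IsOpen {x : R3 | x.2 < r} := isOpen_lt continuous_snd continuous_const
theorem h_open' (r : ℝ) : IsOpen {x : R3 | r < x.2} := isOpen_lt continuous_const continuous_snd

/-- local description -/
theorem gm_local (J J' : FK) {x : R3} (hx : x ∈ dom) : (id =ᶠ[𝓝 x] gm J J') ∨
    (rho (-1 / 4) x < 9 / 64 ∧ gg (-1 / 4) 1 J =ᶠ[𝓝 x] gm J J') ∨
    (rho (1 / 4) x < 9 / 64 ∧ gg (1 / 4) 0 J' =ᶠ[𝓝 x] gm J J') := by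
  obtain ⟨d1, d2⟩ := hx
  rcases lt_or_ge x.2 (1 / 8) with h1 | h1
  · left
    filter_upwards [(h_open (1 / 8)).mem_nhds h1] with y hy
    exact (gm_id J J' (Or.inl (le_of_lt hy))).symm
  rcases le_or_gt x.2 (3 / 8) with h2 | h2
  · rcases d2 h1 h2 with h3 | h3
    · right; right
      refine ⟨h3, ?_⟩
      have a : x.2 < 5 / 8 := by linarith
      filter_upwards [(h_open (5 / 8)).mem_nhds a, (rho_open (1 / 4) (9 / 64)).mem_nhds h3] with y hy hy'
      have hy1 : y.2 < 5 / 8 := hy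
      rcases le_or_gt y.2 (1 / 2) with h4 | h4
      · exact (gm_lo J J' h4 hy').symm
      · rw [gm_id J J' (Or.inr (Or.inl ⟨by linarith, hy1.le⟩))]
        exact gg_id J' hy' (Or.inr (by linarith))
    · left
      have a : x.2 < 1 / 2 := by linarith
      filter_upwards [(h_open (1 / 2)).mem_nhds a, (rho_open' (1 / 4) (1 / 4)).mem_nhds h3] with y hy hy'
      have hy2 : 1 / 4 < rho (1 / 4) y := hy'
      exact (gm_lo' J J' (le_of_lt hy) (by linarith)).symm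
  rcases lt_or_ge x.2 (5 / 8) with h3 | h3
  · left
    filter_upwards [(h_open (5 / 8)).mem_nhds h3, (h_open' (3 / 8)).mem_nhds h2] with y hy hy'
    exact (gm_id J J' (Or.inr (Or.inl ⟨le_of_lt hy', le_of_lt hy⟩))).symm
  rcases le_or_gt x.2 (7 / 8) with h4 | h4
  · have a : 1 / 2 < x.2 := by linarith
    rcases d1 h3 h4 with h5 | h5
    · right; left
      refine ⟨h5, ?_⟩
      filter_upwards [(h_open' (1 / 2)).mem_nhds a, (rho_open (-1 / 4) (9 / 64)).mem_nhds h5] with y hy hy'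
      exact (gm_up J J' hy hy').symm
    · left
      filter_upwards [(h_open' (1 / 2)).mem_nhds a, (rho_open' (-1 / 4) (1 / 4)).mem_nhds h5] with y hy hy'
      have hy2 : 1 / 4 < rho (-1 / 4) y := hy'
      exact (gm_up' J J' hy (by linarith)).symm
  · left
    filter_upwards [(h_open' (7 / 8)).mem_nhds h4] with y hy
    exact (gm_id J J' (Or.inr (Or.inr (le_of_lt hy)))).symm

/-- smooth embeddings of `dom` that are the identity away from the tubes -/
structure Good (g : R3 → R3) : Prop where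
  cd : ∀ x ∈ dom, ContDiffAt ℝ ∞ g x
  fd : ∀ x ∈ dom, Function.Injective (fderiv ℝ g x)
  inj : InjOn g dom
  id' : ∀ x : R3, (x.2 ≤ 1 / 8 ∨ (3 / 8 ≤ x.2 ∧ x.2 ≤ 5 / 8) ∨ 7 / 8 ≤ x.2) → g x = x
  left : ∀ x : R3, x.1 = (-1 / 2, 0) → x.2 ≤ 1 / 2 → g x = x
  right : ∀ x : R3, x.1 = (1 / 2, 0) → 1 / 2 ≤ x.2 → g x = x

theorem Good_id : Good id where
  cd x _ := contDiffAt_id
  fd x _ := by
    rw [fderiv_id]
    exact fun v w h => h
  inj := injOn_id _
  id' x _ := rfl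
  left x _ _ := rfl
  right x _ _ := rfl

/-- trichotomy on the domain -/
theorem gm_tri (J J' : FK) {x : R3} (hx : x ∈ dom) :
    (rho (-1 / 4) x < 9 / 64 ∧ 5 / 8 < x.2 ∧ x.2 < 7 / 8 ∧ gm J J' x = gg (-1 / 4) 1 J x ∧
      rho (-1 / 4) (gm J J' x) < 1 / 4 ∧ 5 / 8 < (gm J J' x).2 ∧ (gm J J' x).2 < 7 / 8) ∨
    (rho (1 / 4) x < 9 / 64 ∧ 1 / 8 < x.2 ∧ x.2 < 3 / 8 ∧ gm J J' x = gg (1 / 4) 0 J' x ∧
      rho (1 / 4) (gm J J' x) < 1 / 4 ∧ 1 / 8 < (gm J J' x).2 ∧ (gm J J' x).2 < 3 / 8) ∨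
    (gm J J' x = x ∧ ¬ (rho (-1 / 4) x < 1 / 4 ∧ 5 / 8 < x.2 ∧ x.2 < 7 / 8) ∧
      ¬ (rho (1 / 4) x < 1 / 4 ∧ 1 / 8 < x.2 ∧ x.2 < 3 / 8)) := by
  obtain ⟨d1, d2⟩ := hx
  by_cases p1 : 5 / 8 < x.2 ∧ x.2 < 7 / 8
  · rcases d1 p1.1.le p1.2.le with h | h
    · left
      have e := gm_up J J' (show 1 / 2 < x.2 by linarith [p1.1]) h
      obtain ⟨a, b, c⟩ := gg_in (c := -1 / 4) (k := 1) J h (by linarith [p1.1]) (by linarith [p1.2])
      rw [← e] at a b c
      exact ⟨h, p1.1, p1.2, e, a, by linarith, by linarith⟩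
    · right; right
      refine ⟨gm_up' J J' (by linarith [p1.1]) (by linarith), fun q => ?_, fun q => ?_⟩
      · linarith [q.1]
      · linarith [q.2.2, p1.1]
  by_cases p2 : 1 / 8 < x.2 ∧ x.2 < 3 / 8
  · rcases d2 p2.1.le p2.2.le with h | h
    · right; left
      have e := gm_lo J J' (show x.2 ≤ 1 / 2 by linarith [p2.2]) h
      obtain ⟨a, b, c⟩ := gg_in (c := 1 / 4) (k := 0) J' h (by linarith [p2.1]) (by linarith [p2.2])
      rw [← e] at a b c
      exact ⟨h, p2.1, p2.2, e, a, by linarith, by linarith⟩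
    · right; right
      refine ⟨gm_lo' J J' (by linarith [p2.2]) (by linarith), fun q => ?_, fun q => ?_⟩
      · linarith [q.2.1, p2.2]
      · linarith [q.1]
  · right; right
    refine ⟨gm_id J J' ?_, fun q => p1 q.2, fun q => p2 q.2⟩
    by_contra hc
    push Not at hc
    obtain ⟨h1, h2, h3⟩ := hc
    rcases lt_or_ge x.2 (3 / 8) with h4 | h4
    · exact p2 ⟨h1, h4⟩
    · exact p1 ⟨h2 h4, h3⟩

theorem Good_gm (J J' : FK) : Good (gm J J') where
  cd x hx := by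
    rcases gm_local J J' hx with h | h | h
    · exact contDiffAt_id.congr_of_eventuallyEq h.symm
    · exact (gg_cd J h.1).1.congr_of_eventuallyEq h.2.symm
    · exact (gg_cd J' h.1).1.congr_of_eventuallyEq h.2.symm
  fd x hx := by
    rcases gm_local J J' hx with h | h | h
    · refine fd_congr h ?_
      rw [fderiv_id]
      exact fun v w h => h
    · exact fd_congr h.2 (gg_cd J h.1).2
    · exact fd_congr h.2 (gg_cd J' h.1).2
  inj := by
    intro x hx y hy hq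
    rcases gm_tri J J' hx with h | h | h <;> rcases gm_tri J J' hy with h' | h' | h'
    · obtain ⟨a1, a2, a3, a4, a5, a6, a7⟩ := h
      obtain ⟨b1, b2, b3, b4, b5, b6, b7⟩ := h'
      rw [a4, b4] at hq
      exact gg_inj J a1 b1 hq
    · obtain ⟨a1, a2, a3, a4, a5, a6, a7⟩ := h
      obtain ⟨b1, b2, b3, b4, b5, b6, b7⟩ := h'
      rw [hq] at a6
      linarith
    · obtain ⟨a1, a2, a3, a4, a5, a6, a7⟩ := h
      obtain ⟨b1, b2, b3⟩ := h'
      rw [hq, b1] at a5 a6 a7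
      exact absurd ⟨a5, a6, a7⟩ b2
    · obtain ⟨a1, a2, a3, a4, a5, a6, a7⟩ := h
      obtain ⟨b1, b2, b3, b4, b5, b6, b7⟩ := h'
      rw [← hq] at b6
      linarith
    · obtain ⟨a1, a2, a3, a4, a5, a6, a7⟩ := h
      obtain ⟨b1, b2, b3, b4, b5, b6, b7⟩ := h'
      rw [a4, b4] at hq
      exact gg_inj J' a1 b1 hq
    · obtain ⟨a1, a2, a3, a4, a5, a6, a7⟩ := h
      obtain ⟨b1, b2, b3⟩ := h'
      rw [hq, b1] at a5 a6 a7
      exact absurd ⟨a5, a6, a7⟩ b3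
    · obtain ⟨b1, b2, b3, b4, b5, b6, b7⟩ := h'
      obtain ⟨a1, a2, a3⟩ := h
      rw [← hq, a1] at b5 b6 b7
      exact absurd ⟨b5, b6, b7⟩ a2
    · obtain ⟨b1, b2, b3, b4, b5, b6, b7⟩ := h'
      obtain ⟨a1, a2, a3⟩ := h
      rw [← hq, a1] at b5 b6 b7
      exact absurd ⟨b5, b6, b7⟩ a3
    · rw [h.1, h'.1] at hq
      exact hq
  id' x h := gm_id J J' h
  left x h1 h2 := by
    apply gm_lo' J J' h2
    simp only [rho, h1]
    norm_num
  right x h1 h2 := by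
    rcases h2.eq_or_lt with h | h
    · exact gm_id J J' (Or.inr (Or.inl ⟨by linarith, by linarith⟩))
    · apply gm_up' J J' h
      simp only [rho, h1]
      norm_num

end Pool.Agent.helper94.SLK
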