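import Pool.Agent.helper94.SLK.Lem

/-! # Concordance of long knots: isotopies, symmetry, transitivity -/

open Set Filter
open scoped ContDiff Topology

namespace Pool.Agent.helper94.SLK

theorem smooth_diff {E F : Type*} [NormedAddCommGroup E] [NormedSpace ℝ E] [NormedAddCommGroup F] [NormedSpace ℝ F]
    {f : E → F} (h : ContDiff ℝ ∞ f) : Differentiable ℝ f := h.differentiable (by norm_num)

/-- IS -/
theorem IS (h : ℝ × ℝ → R3) (K K' : ℝ → R3) (hs : ContDiff ℝ ∞ h)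
    (hi : ∀ s, Function.Injective fun t => h (t, s))
    (hd : ∀ s t, Function.Injective (fderiv ℝ (fun t => h (t, s)) t))
    (h0 : ∀ t s, s ≤ 1 / 4 → h (t, s) = K t) (h1 : ∀ t s, 3 / 4 ≤ s → h (t, s) = K' t)
    (he : ∃ M, ∀ t s, M ≤ |t| → h (t, s) = zig t) : LConc K K' := by
  refine ⟨fun q => (h q, q.2), hs.prodMk contDiff_snd, fun q => fd_prod (smooth_diff hs q) (hd q.2 q.1), ?_,
    fun t s hs0 hs1 => ⟨hs0, hs1⟩, 1 / 4, by norm_num, fun t s hs0 => ?_, fun t s hs1 => ?_, ?_⟩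
  · rintro ⟨t, s⟩ ⟨t', s'⟩ hq
    have h2 : s = s' := (Prod.ext_iff.1 hq).2
    subst h2
    have h3 : h (t, s) = h (t', s) := (Prod.ext_iff.1 hq).1
    have h4 := hi s h3
    rw [h4]
  · simp only [h0 t s hs0]
  · simp only [h1 t s (by linarith)]
  · obtain ⟨M, hM⟩ := he
    exact ⟨M, fun t s ht => by simp only [hM t s ht]⟩

/-- LS: symmetry -/
theorem LS {K K' : ℝ → R3} (h : LConc K K') : LConc K' K := by
  obtain ⟨F, hF, hI, hinj, hin, δ, hδ, h0, h1, M, hM⟩ := h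
  have ha : ContDiff ℝ ∞ (fun x : R4 => ((x.1, 1 - x.2) : R4)) := by fun_prop
  have hb : ContDiff ℝ ∞ (fun q : ℝ × ℝ => ((q.1, 1 - q.2) : ℝ × ℝ)) := by fun_prop
  refine ⟨fun q => ((F (q.1, 1 - q.2)).1, 1 - (F (q.1, 1 - q.2)).2), ?_, ?_, ?_, ?_, δ, hδ, ?_, ?_, M, ?_⟩
  · exact ha.comp (hF.comp hb)
  · intro q
    have ia : ∀ x : R4, Function.Injective (fderiv ℝ (fun x : R4 => ((x.1, 1 - x.2) : R4)) x) := fun x =>
      fd_leftInv (g := fun x : R4 => ((x.1, 1 - x.2) : R4)) (smooth_diff ha _) (smooth_diff ha _)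
        (fun y => by simp)
    have ib : ∀ x : ℝ × ℝ, Function.Injective (fderiv ℝ (fun q : ℝ × ℝ => ((q.1, 1 - q.2) : ℝ × ℝ)) x) := fun x =>
      fd_leftInv (g := fun q : ℝ × ℝ => ((q.1, 1 - q.2) : ℝ × ℝ)) (smooth_diff hb _) (smooth_diff hb _)
        (fun y => by simp)
    have ic := fd_comp (g := F) (f := fun q : ℝ × ℝ => ((q.1, 1 - q.2) : ℝ × ℝ)) (x := q) (smooth_diff hF _)
      (smooth_diff hb _) (hI _) (ib q)
    exact fd_comp (g := fun x : R4 => ((x.1, 1 - x.2) : R4)) (f := fun q : ℝ × ℝ => F (q.1, 1 - q.2)) (x := q)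
      (smooth_diff ha _) (smooth_diff (hF.comp hb) _) (ia _) ic
  · rintro ⟨t, s⟩ ⟨t', s'⟩ hq
    have e1 : (F (t, 1 - s)).1 = (F (t', 1 - s')).1 := (Prod.ext_iff.1 hq).1
    have e2 : 1 - (F (t, 1 - s)).2 = 1 - (F (t', 1 - s')).2 := (Prod.ext_iff.1 hq).2
    have e3 := hinj (Prod.ext e1 (by linarith))
    have e4 : t = t' := congrArg Prod.fst e3
    have e5 : 1 - s = 1 - s' := congrArg Prod.snd e3
    rw [e4, show s = s' by linarith]
  · intro t s h0 h1
    have := hin t (1 - s) (by linarith) (by linarith)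
    exact ⟨by simp only; linarith [this.2], by simp only; linarith [this.1]⟩
  · intro t s hs
    simp only [h1 t (1 - s) (by linarith), sub_sub_cancel]
  · intro t s hs
    simp only [h0 t (1 - s) (by linarith), sub_sub_cancel]
  · intro t s ht
    simp only [hM t (1 - s) ht, sub_sub_cancel]

/-- the first half of the glued concordance -/
theorem LT_height {K K' : ℝ → R3} {F : ℝ × ℝ → R4} {δ : ℝ} (hδ : 0 < δ)
    (hin : ∀ t s, 0 < s → s < 1 → 0 < (F (t, s)).2 ∧ (F (t, s)).2 < 1)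
    (h0 : ∀ t s, s ≤ δ → F (t, s) = (K t, s)) (h1 : ∀ t s, 1 - δ ≤ s → F (t, s) = (K' t, s)) (t s : ℝ) :
    (s ≤ 0 → (F (t, s)).2 = s) ∧ (1 ≤ s → (F (t, s)).2 = s) ∧
      (0 < s → 0 < (F (t, s)).2) ∧ (s < 1 → (F (t, s)).2 < 1) := by
  have a1 : s ≤ 0 → (F (t, s)).2 = s := fun h => by rw [h0 t s (by linarith)]
  have a2 : 1 ≤ s → (F (t, s)).2 = s := fun h => by rw [h1 t s (by linarith)]
  refine ⟨a1, a2, fun h => ?_, fun h => ?_⟩
  · rcases lt_or_ge s 1 with h2 | h2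
    · exact (hin t s h h2).1
    · rw [a2 h2]; exact h
  · rcases lt_or_ge 0 s with h2 | h2
    · exact (hin t s h2 h).2
    · rw [a1 h2]; exact h

/-- LT: transitivity -/
theorem LT {K K' K'' : ℝ → R3} (h : LConc K K') (h' : LConc K' K'') : LConc K K'' := by
  obtain ⟨F, hF, hI, hinj, hin, δ, hδ, h0, h1, M, hM⟩ := h
  obtain ⟨F', hF', hI', hinj', hin', δ', hδ', h0', h1', M', hM'⟩ := h'
  have ha : ContDiff ℝ ∞ (fun x : R4 => ((x.1, x.2 / 2) : R4)) := by fun_prop
  have ha' : ContDiff ℝ ∞ (fun x : R4 => ((x.1, (x.2 + 1) / 2) : R4)) := by fun_prop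
  have hb : ContDiff ℝ ∞ (fun q : ℝ × ℝ => ((q.1, 2 * q.2) : ℝ × ℝ)) := by fun_prop
  have hb' : ContDiff ℝ ∞ (fun q : ℝ × ℝ => ((q.1, 2 * q.2 - 1) : ℝ × ℝ)) := by fun_prop
  have ia : ∀ x : R4, Function.Injective (fderiv ℝ (fun x : R4 => ((x.1, x.2 / 2) : R4)) x) := fun x =>
    fd_leftInv (g := fun x : R4 => ((x.1, x.2 * 2) : R4)) (by fun_prop) (smooth_diff ha _) (fun y => by simp)
  have ia' : ∀ x : R4, Function.Injective (fderiv ℝ (fun x : R4 => ((x.1, (x.2 + 1) / 2) : R4)) x) := fun x =>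
    fd_leftInv (g := fun x : R4 => ((x.1, x.2 * 2 - 1) : R4)) (by fun_prop) (smooth_diff ha' _) (fun y => by simp)
  have ib : ∀ x : ℝ × ℝ, Function.Injective (fderiv ℝ (fun q : ℝ × ℝ => ((q.1, 2 * q.2) : ℝ × ℝ)) x) := fun x =>
    fd_leftInv (g := fun q : ℝ × ℝ => ((q.1, q.2 / 2) : ℝ × ℝ)) (by fun_prop) (smooth_diff hb _) (fun y => by simp)
  have ib' : ∀ x : ℝ × ℝ, Function.Injective (fderiv ℝ (fun q : ℝ × ℝ => ((q.1, 2 * q.2 - 1) : ℝ × ℝ)) x) := fun x =>
    fd_leftInv (g := fun q : ℝ × ℝ => ((q.1, (q.2 + 1) / 2) : ℝ × ℝ)) (by fun_prop) (smooth_diff hb' _)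
      (fun y => by simp)
  set A : ℝ × ℝ → R4 := fun q => ((F (q.1, 2 * q.2)).1, (F (q.1, 2 * q.2)).2 / 2) with hA
  set B : ℝ × ℝ → R4 := fun q => ((F' (q.1, 2 * q.2 - 1)).1, ((F' (q.1, 2 * q.2 - 1)).2 + 1) / 2) with hB
  have sA : ContDiff ℝ ∞ A := ha.comp (hF.comp hb)
  have sB : ContDiff ℝ ∞ B := ha'.comp (hF'.comp hb')
  have iA : ∀ q, Function.Injective (fderiv ℝ A q) := fun q =>
    fd_comp (g := fun x : R4 => ((x.1, x.2 / 2) : R4)) (f := fun q : ℝ × ℝ => F (q.1, 2 * q.2)) (x := q)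
      (smooth_diff ha _) (smooth_diff (hF.comp hb) _) (ia _)
      (fd_comp (g := F) (f := fun q : ℝ × ℝ => ((q.1, 2 * q.2) : ℝ × ℝ)) (x := q) (smooth_diff hF _)
        (smooth_diff hb _) (hI _) (ib q))
  have iB : ∀ q, Function.Injective (fderiv ℝ B q) := fun q =>
    fd_comp (g := fun x : R4 => ((x.1, (x.2 + 1) / 2) : R4)) (f := fun q : ℝ × ℝ => F' (q.1, 2 * q.2 - 1)) (x := q)
      (smooth_diff ha' _) (smooth_diff (hF'.comp hb') _) (ia' _)
      (fd_comp (g := F') (f := fun q : ℝ × ℝ => ((q.1, 2 * q.2 - 1) : ℝ × ℝ)) (x := q) (smooth_diff hF' _)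
        (smooth_diff hb' _) (hI' _) (ib' q))
  set G : ℝ × ℝ → R4 := fun q => if q.2 ≤ 1 / 2 then A q else B q with hG
  -- agreement
  have eA : ∀ q : ℝ × ℝ, q.2 < 1 / 2 + δ' / 2 → G q = A q := by
    rintro ⟨t, s⟩ hs
    simp only [hG]
    split_ifs with h2
    · rfl
    · simp only at hs h2
      simp only [hA, hB]
      rw [h0' t (2 * s - 1) (by linarith), h1 t (2 * s) (by linarith)]
      simp
  have eB : ∀ q : ℝ × ℝ, 1 / 2 - δ / 2 < q.2 → G q = B q := by
    rintro ⟨t, s⟩ hs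
    simp only [hG]
    split_ifs with h2
    · simp only at hs h2
      simp only [hA, hB]
      rw [h0' t (2 * s - 1) (by linarith), h1 t (2 * s) (by linarith)]
      simp
    · rfl
  have nA : ∀ q : ℝ × ℝ, q.2 < 1 / 2 + δ' / 2 → A =ᶠ[𝓝 q] G := fun q hq => by
    have : {q : ℝ × ℝ | q.2 < 1 / 2 + δ' / 2} ∈ 𝓝 q := (isOpen_lt continuous_snd continuous_const).mem_nhds hq
    filter_upwards [this] with r hr using (eA r hr).symm
  have nB : ∀ q : ℝ × ℝ, 1 / 2 - δ / 2 < q.2 → B =ᶠ[𝓝 q] G := fun q hq => by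
    have : {q : ℝ × ℝ | 1 / 2 - δ / 2 < q.2} ∈ 𝓝 q := (isOpen_lt continuous_const continuous_snd).mem_nhds hq
    filter_upwards [this] with r hr using (eB r hr).symm
  have H := LT_height hδ hin h0 h1
  have H' := LT_height hδ' hin' h0' h1'
  -- heights
  have gl1 : ∀ q : ℝ × ℝ, q.2 ≤ 1 / 2 → (G q).2 ≤ 1 / 2 := by
    rintro ⟨t, s⟩ hs
    rw [eA _ (by simp only at hs ⊢; linarith)]
    simp only [hA] at hs ⊢
    rcases lt_or_eq_of_le hs with h2 | h2
    · have := (H t (2 * s)).2.2.2 (by linarith)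
      linarith
    · have := (H t (2 * s)).2.1 (by linarith)
      linarith
  have gl2 : ∀ q : ℝ × ℝ, 1 / 2 < q.2 → 1 / 2 < (G q).2 := by
    rintro ⟨t, s⟩ hs
    rw [eB _ (by simp only at hs ⊢; linarith)]
    simp only [hB] at hs ⊢
    have := (H' t (2 * s - 1)).2.2.1 (by linarith)
    linarith
  refine ⟨G, ?_, ?_, ?_, ?_, min (min δ δ' / 2) (1 / 4), by positivity, ?_, ?_, max M M', ?_⟩
  · rw [contDiff_iff_contDiffAt]
    intro q
    rcases le_or_gt q.2 (1 / 2) with hq | hq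
    · exact sA.contDiffAt.congr_of_eventuallyEq (nA q (by linarith)).symm
    · exact sB.contDiffAt.congr_of_eventuallyEq (nB q (by linarith)).symm
  · intro q
    rcases le_or_gt q.2 (1 / 2) with hq | hq
    · exact fd_congr (nA q (by linarith)) (iA q)
    · exact fd_congr (nB q (by linarith)) (iB q)
  · rintro ⟨t, s⟩ ⟨t', s'⟩ hq
    rcases le_or_gt s (1 / 2) with hs | hs <;> rcases le_or_gt s' (1 / 2) with hs' | hs'
    · rw [eA _ (by simp only; linarith), eA _ (by simp only; linarith)] at hq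
      have e1 : (F (t, 2 * s)).1 = (F (t', 2 * s')).1 := (Prod.ext_iff.1 hq).1
      have e2 : (F (t, 2 * s)).2 / 2 = (F (t', 2 * s')).2 / 2 := (Prod.ext_iff.1 hq).2
      have e3 := hinj (Prod.ext e1 (by linarith))
      have e4 : t = t' := congrArg Prod.fst e3
      have e5 : 2 * s = 2 * s' := congrArg Prod.snd e3
      rw [e4, show s = s' by linarith]
    · have a := gl1 (t, s) hs
      have b := gl2 (t', s') hs'
      rw [hq] at a
      exact absurd a (not_le.2 b)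
    · have a := gl1 (t', s') hs'
      have b := gl2 (t, s) hs
      rw [← hq] at a
      exact absurd a (not_le.2 b)
    · rw [eB _ (by simp only; linarith), eB _ (by simp only; linarith)] at hq
      have e1 : (F' (t, 2 * s - 1)).1 = (F' (t', 2 * s' - 1)).1 := (Prod.ext_iff.1 hq).1
      have e2 : ((F' (t, 2 * s - 1)).2 + 1) / 2 = ((F' (t', 2 * s' - 1)).2 + 1) / 2 := (Prod.ext_iff.1 hq).2
      have e3 := hinj' (Prod.ext e1 (by linarith))
      have e4 : t = t' := congrArg Prod.fst e3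
      have e5 : 2 * s - 1 = 2 * s' - 1 := congrArg Prod.snd e3
      rw [e4, show s = s' by linarith]
  · intro t s hs0 hs1
    rcases le_or_gt s (1 / 2) with hs | hs
    · refine ⟨?_, by linarith [gl1 (t, s) hs]⟩
      rw [eA _ (by simp only; linarith)]
      simp only [hA]
      have := (H t (2 * s)).2.2.1 (by linarith)
      linarith
    · refine ⟨by linarith [gl2 (t, s) hs], ?_⟩
      rw [eB _ (by simp only; linarith)]
      simp only [hB]
      have := (H' t (2 * s - 1)).2.2.2 (by linarith)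
      linarith
  · intro t s hs
    have b1 : s ≤ min δ δ' / 2 := hs.trans (min_le_left _ _)
    have b2 : s ≤ 1 / 4 := hs.trans (min_le_right _ _)
    have b3 : min δ δ' ≤ δ := min_le_left _ _
    rw [eA _ (by simp only; linarith)]
    simp only [hA]
    rw [h0 t (2 * s) (by linarith)]
    simp
  · intro t s hs
    have b1 : min (min δ δ' / 2) (1 / 4) ≤ min δ δ' / 2 := min_le_left _ _
    have b2 : min (min δ δ' / 2) (1 / 4) ≤ 1 / 4 := min_le_right _ _
    have b3 : min δ δ' ≤ δ' := min_le_right _ _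
    rw [eB _ (by simp only; linarith)]
    simp only [hB]
    rw [h1' t (2 * s - 1) (by linarith)]
    simp
  · intro t s ht
    have b1 := (le_max_left M M').trans ht
    have b2 := (le_max_right M M').trans ht
    rcases le_or_gt s (1 / 2) with hs | hs
    · rw [eA _ (by simp only; linarith)]
      simp only [hA]
      rw [hM t (2 * s) b1]
      simp
    · rw [eB _ (by simp only; linarith)]
      simp only [hB]
      rw [hM' t (2 * s - 1) b2]
      simp

end Pool.Agent.helper94.SLK
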