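import Pool.Agent.helper94.SLK.Spec

/-! # General lemmas -/

open Set Filter
open scoped ContDiff Topology

namespace Pool.Agent.helper94.SLK

section
variable {E F G : Type*} [NormedAddCommGroup E] [NormedSpace ℝ E] [NormedAddCommGroup F] [NormedSpace ℝ F]
  [NormedAddCommGroup G] [NormedSpace ℝ G]

theorem fdinj_of (f : E →L[ℝ] F) (h : ∀ v, f v = 0 → v = 0) : Function.Injective f :=
  (injective_iff_map_eq_zero f).2 h

theorem fd_comp {g : F → G} {f : E → F} {x : E} (hg : DifferentiableAt ℝ g (f x)) (hf : DifferentiableAt ℝ f x)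
    (ig : Function.Injective (fderiv ℝ g (f x))) (jf : Function.Injective (fderiv ℝ f x)) :
    Function.Injective (fderiv ℝ (fun y => g (f y)) x) := by
  have h : fderiv ℝ (fun y => g (f y)) x = (fderiv ℝ g (f x)).comp (fderiv ℝ f x) := fderiv_fun_comp x hg hf
  rw [h, ContinuousLinearMap.coe_comp]
  exact ig.comp jf

theorem fd_leftInv {g : F → E} {f : E → F} {x : E} (hg : DifferentiableAt ℝ g (f x)) (hf : DifferentiableAt ℝ f x)
    (h : ∀ y, g (f y) = y) : Function.Injective (fderiv ℝ f x) := by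
  have h1 : fderiv ℝ (fun y => g (f y)) x = (fderiv ℝ g (f x)).comp (fderiv ℝ f x) := fderiv_fun_comp x hg hf
  have h2 : (fun y => g (f y)) = id := funext h
  rw [h2, fderiv_id] at h1
  intro v w hvw
  have h3 : ∀ u, (fderiv ℝ g (f x)) (fderiv ℝ f x u) = u := fun u => by
    have := congrArg (fun A : E →L[ℝ] E => A u) h1
    simpa using this.symm
  rw [← h3 v, hvw, h3 w]

theorem fd_congr {f g : E → F} {x : E} (h : f =ᶠ[𝓝 x] g) (hf : Function.Injective (fderiv ℝ f x)) :
    Function.Injective (fderiv ℝ g x) := by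
  rwa [← h.fderiv_eq]

theorem fd_prod {h : E × ℝ → F} {q : E × ℝ} (hd : DifferentiableAt ℝ h q)
    (hn : Function.Injective (fderiv ℝ (fun t => h (t, q.2)) q.1)) :
    Function.Injective (fderiv ℝ (fun q : E × ℝ => (h q, q.2)) q) := by
  have h1 : HasFDerivAt (fun q : E × ℝ => (h q, q.2))
      ((fderiv ℝ h q).prod (ContinuousLinearMap.snd ℝ E ℝ)) q := hd.hasFDerivAt.prodMk hasFDerivAt_snd
  rw [h1.fderiv]
  apply fdinj_of
  rintro ⟨a, b⟩ hv
  have hb : b = 0 := congrArg Prod.snd hv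
  have ha : fderiv ℝ h q (a, b) = 0 := congrArg Prod.fst hv
  subst hb
  have h2 : HasFDerivAt (fun t : E => (t, q.2)) (ContinuousLinearMap.inl ℝ E ℝ) q.1 := by
    have := (hasFDerivAt_id (𝕜 := ℝ) q.1).prodMk (hasFDerivAt_const (𝕜 := ℝ) q.2 q.1)
    exact this
  have h3 : HasFDerivAt (fun t : E => h (t, q.2)) ((fderiv ℝ h q).comp (ContinuousLinearMap.inl ℝ E ℝ)) q.1 := by
    have hq : HasFDerivAt h (fderiv ℝ h q) (q.1, q.2) := hd.hasFDerivAt
    exact hq.comp q.1 h2
  rw [h3.fderiv] at hn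
  have h4 : a = 0 := hn (by
    rw [map_zero]
    exact ha)
  rw [h4]
  rfl

theorem fd_deriv {f : ℝ → F} {t : ℝ} (h : deriv f t ≠ 0) :
    Function.Injective (fderiv ℝ f t) := by
  apply fdinj_of
  intro v hv
  have h1 : fderiv ℝ f t v = v • deriv f t := by
    have := (fderiv ℝ f t).map_smul v 1
    simp only [smul_eq_mul, mul_one] at this
    rw [this, fderiv_apply_one_eq_deriv]
  rw [h1] at hv
  exact (smul_eq_zero.1 hv).resolve_right h

theorem deriv_fd {f : ℝ → F} {t : ℝ} (h : Function.Injective (fderiv ℝ f t)) : deriv f t ≠ 0 := by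
  intro hc
  rw [← fderiv_apply_one_eq_deriv] at hc
  exact one_ne_zero (h (by rw [hc, map_zero]))

end

end Pool.Agent.helper94.SLK
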