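import Pool.Agent.helper94.SLK.LX

/-! # Stacking, forgetting strands -/

open Set Filter
open scoped ContDiff Topology

namespace Pool.Agent.helper94.SLK

theorem MU_lo_smooth : ContDiff ℝ ∞ lo := by unfold lo; fun_prop
theorem MU_hi_smooth : ContDiff ℝ ∞ hi := by unfold hi; fun_prop

theorem MU_lo_fd (x : R3) : Function.Injective (fderiv ℝ lo x) :=
  fd_leftInv (g := fun x : R3 => ((x.1, 2 * x.2) : R3)) (by fun_prop) (smooth_diff MU_lo_smooth _) (fun y => by
    simp only [lo]
    refine Prod.ext rfl ?_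
    simp only
    ring)

theorem MU_hi_fd (x : R3) : Function.Injective (fderiv ℝ hi x) :=
  fd_leftInv (g := fun x : R3 => ((x.1, 2 * x.2 - 1) : R3)) (by fun_prop) (smooth_diff MU_hi_smooth _) (fun y => by
    simp only [hi]
    refine Prod.ext rfl ?_
    simp only
    ring)

theorem MU_lo_inj {x y : R3} (h : lo x = lo y) : x = y := by
  have h1 : x.1 = y.1 := (Prod.ext_iff.1 h).1
  have h2 : x.2 / 2 = y.2 / 2 := (Prod.ext_iff.1 h).2
  exact Prod.ext h1 (by linarith)

theorem MU_hi_inj {x y : R3} (h : hi x = hi y) : x = y := by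
  have h1 : x.1 = y.1 := (Prod.ext_iff.1 h).1
  have h2 : (x.2 + 1) / 2 = (y.2 + 1) / 2 := (Prod.ext_iff.1 h).2
  exact Prod.ext h1 (by linarith)

/-- MU -/
theorem MU {m : ℕ} {p : Fin m → R2} (X Y : SL m p) : ∃ L : SL m p, L.f = stackF X Y := by
  obtain ⟨δ, hδ, hX⟩ := X.ends
  obtain ⟨δ', hδ', hY⟩ := Y.ends
  have s1 : ContDiff ℝ ∞ (fun t : ℝ => 2 * t) := by fun_prop
  have s2 : ContDiff ℝ ∞ (fun t : ℝ => 2 * t - 1) := by fun_prop
  have sA : ∀ i, ContDiff ℝ ∞ (fun t => lo (X.f i (2 * t))) := fun i =>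
    MU_lo_smooth.comp ((X.smooth i).comp s1)
  have sB : ∀ i, ContDiff ℝ ∞ (fun t => hi (Y.f i (2 * t - 1))) := fun i =>
    MU_hi_smooth.comp ((Y.smooth i).comp s2)
  have iA : ∀ i t, Function.Injective (fderiv ℝ (fun t => lo (X.f i (2 * t))) t) := fun i t =>
    fd_comp (g := lo) (f := fun t => X.f i (2 * t)) (x := t) (smooth_diff MU_lo_smooth _)
      (smooth_diff ((X.smooth i).comp s1) _) (MU_lo_fd _)
      (fd_comp (g := X.f i) (f := fun t : ℝ => 2 * t) (x := t) (smooth_diff (X.smooth i) _) (smooth_diff s1 _)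
        (fd_deriv (X.imm i _)) (fd_leftInv (g := fun t : ℝ => t / 2) (by fun_prop) (smooth_diff s1 _)
          (fun y => by ring)))
  have iB : ∀ i t, Function.Injective (fderiv ℝ (fun t => hi (Y.f i (2 * t - 1))) t) := fun i t =>
    fd_comp (g := hi) (f := fun t => Y.f i (2 * t - 1)) (x := t) (smooth_diff MU_hi_smooth _)
      (smooth_diff ((Y.smooth i).comp s2) _) (MU_hi_fd _)
      (fd_comp (g := Y.f i) (f := fun t : ℝ => 2 * t - 1) (x := t) (smooth_diff (Y.smooth i) _) (smooth_diff s2 _)
        (fd_deriv (Y.imm i _)) (fd_leftInv (g := fun t : ℝ => (t + 1) / 2) (by fun_prop) (smooth_diff s2 _)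
          (fun y => by ring)))
  have eA : ∀ i t, t < 1 / 2 + δ' / 2 → stackF X Y i t = lo (X.f i (2 * t)) := by
    intro i t ht
    simp only [stackF]
    split_ifs with h
    · rfl
    · rw [hX i (2 * t) (Or.inr (by linarith)), hY i (2 * t - 1) (Or.inl (by linarith))]
      simp only [lo, hi]
      refine Prod.ext rfl ?_
      simp only
      ring
  have eB : ∀ i t, 1 / 2 - δ / 2 < t → stackF X Y i t = hi (Y.f i (2 * t - 1)) := by
    intro i t ht
    simp only [stackF]
    split_ifs with h
    · rw [hX i (2 * t) (Or.inr (by linarith)), hY i (2 * t - 1) (Or.inl (by linarith))]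
      simp only [lo, hi]
      refine Prod.ext rfl ?_
      simp only
      ring
    · rfl
  have nA : ∀ i t, t ≤ 1 / 2 → (fun t => lo (X.f i (2 * t))) =ᶠ[𝓝 t] stackF X Y i := fun i t ht => by
    have : {q : ℝ | q < 1 / 2 + δ' / 2} ∈ 𝓝 t :=
      (isOpen_lt continuous_id continuous_const).mem_nhds (by simp only [mem_setOf_eq, id]; linarith)
    filter_upwards [this] with r hr using (eA i r hr).symm
  have nB : ∀ i t, 1 / 2 < t → (fun t => hi (Y.f i (2 * t - 1))) =ᶠ[𝓝 t] stackF X Y i := fun i t ht => by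
    have : {q : ℝ | 1 / 2 - δ / 2 < q} ∈ 𝓝 t :=
      (isOpen_lt continuous_const continuous_id).mem_nhds (by simp only [mem_setOf_eq, id]; linarith)
    filter_upwards [this] with r hr using (eB i r hr).symm
  have lA : ∀ i t, t ≤ 1 / 2 → (stackF X Y i t).2 ≤ 1 / 2 := by
    intro i t ht
    rw [eA i t (by linarith)]
    simp only [lo]
    rcases le_or_gt t 0 with h0 | h0
    · rw [hX i (2 * t) (Or.inl (by linarith))]
      simp only
      linarith
    · rcases ht.lt_or_eq with h1 | h1
      · have := (X.inside i (2 * t) (by linarith) (by linarith)).2.2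
        linarith
      · rw [hX i (2 * t) (Or.inr (by linarith))]
        simp only
        linarith
  have lB : ∀ i t, 1 / 2 < t → 1 / 2 < (stackF X Y i t).2 := by
    intro i t ht
    rw [eB i t (by linarith)]
    simp only [hi]
    rcases lt_or_ge t 1 with h1 | h1
    · have := (Y.inside i (2 * t - 1) (by linarith) (by linarith)).2.1
      linarith
    · rw [hY i (2 * t - 1) (Or.inr (by linarith))]
      simp only
      linarith
  have hp : ∀ i, p i ∈ disk := by
    intro i
    have h1 : 0 < min δ (1 / 2) := by positivity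
    have h2 : min δ (1 / 2) ≤ 1 / 2 := min_le_right _ _
    have := (X.inside i (min δ (1 / 2)) h1 (by linarith)).1
    rwa [hX i (min δ (1 / 2)) (Or.inl (min_le_left _ _))] at this
  refine ⟨⟨stackF X Y, ?_, ?_, ?_, ?_, min (min δ δ' / 2) (1 / 4), by positivity, ?_⟩, rfl⟩
  · intro i
    rw [contDiff_iff_contDiffAt]
    intro t
    rcases le_or_gt t (1 / 2) with h | h
    · exact (sA i).contDiffAt.congr_of_eventuallyEq (nA i t h).symm
    · exact (sB i).contDiffAt.congr_of_eventuallyEq (nB i t h).symm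
  · intro i t
    apply deriv_fd
    rcases le_or_gt t (1 / 2) with h | h
    · exact fd_congr (nA i t h) (iA i t)
    · exact fd_congr (nB i t h) (iB i t)
  · intro i j s t hq
    rcases le_or_gt s (1 / 2) with hs | hs <;> rcases le_or_gt t (1 / 2) with ht | ht
    · rw [eA i s (by linarith), eA j t (by linarith)] at hq
      obtain ⟨a, b⟩ := X.inj i j _ _ (MU_lo_inj hq)
      exact ⟨a, by linarith⟩
    · have a := lA i s hs
      rw [hq] at a
      exact absurd a (not_le.2 (lB j t ht))
    · have a := lA j t ht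
      rw [← hq] at a
      exact absurd a (not_le.2 (lB i s hs))
    · rw [eB i s (by linarith), eB j t (by linarith)] at hq
      obtain ⟨a, b⟩ := Y.inj i j _ _ (MU_hi_inj hq)
      exact ⟨a, by linarith⟩
  · intro i t h0 h1
    rcases lt_trichotomy t (1 / 2) with h | h | h
    · have := X.inside i (2 * t) (by linarith) (by linarith)
      rw [eA i t (by linarith)]
      refine ⟨this.1, ?_, ?_⟩
      · simp only [lo]; linarith [this.2.1]
      · simp only [lo]; linarith [this.2.2]
    · rw [eA i t (by linarith), hX i (2 * t) (Or.inr (by linarith))]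
      refine ⟨hp i, ?_, ?_⟩
      · simp only [lo]; linarith
      · simp only [lo]; linarith
    · have := Y.inside i (2 * t - 1) (by linarith) (by linarith)
      rw [eB i t (by linarith)]
      refine ⟨this.1, ?_, ?_⟩
      · simp only [hi]; linarith [this.2.1]
      · simp only [hi]; linarith [this.2.2]
  · intro i t ht
    have b1 : min (min δ δ' / 2) (1 / 4) ≤ min δ δ' / 2 := min_le_left _ _
    have b2 : min (min δ δ' / 2) (1 / 4) ≤ 1 / 4 := min_le_right _ _
    have b3 : min δ δ' ≤ δ := min_le_left _ _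
    have b4 : min δ δ' ≤ δ' := min_le_right _ _
    rcases ht with ht | ht
    · rw [eA i t (by linarith), hX i (2 * t) (Or.inl (by linarith))]
      simp only [lo]
      refine Prod.ext rfl ?_
      simp only
      ring
    · rw [eB i t (by linarith), hY i (2 * t - 1) (Or.inr (by linarith))]
      simp only [hi]
      refine Prod.ext rfl ?_
      simp only
      ring

/-- string links with the same arcs -/
theorem SL_ext {m : ℕ} {p : Fin m → R2} {L L' : SL m p} (h : L.f = L'.f) : L = L' := by
  cases L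
  cases L'
  simp only at h
  subst h
  rfl

/-- RE: forgetting strands -/
theorem RE {m : ℕ} (hm : 3 ≤ m) {L L' : SL m (pts m)} {A A' : SL 3 (pts 3)}
    (hA : A.f = fun i => L.f (Fin.castLE hm i)) (hA' : A'.f = fun i => L'.f (Fin.castLE hm i))
    (h : SmConc L L') : SmConc A A' := by
  obtain ⟨F, hF, hI, hinj, hin, δ, hδ, h0, h1, he⟩ := h
  refine ⟨fun i => F (Fin.castLE hm i), fun i => hF _, fun i q => hI _ q, ?_, fun i t s => hin _ t s, δ, hδ, ?_, ?_, ?_⟩
  · intro i j q r hq
    obtain ⟨a, b⟩ := hinj _ _ q r hq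
    exact ⟨Fin.castLE_injective hm a, b⟩
  · intro i t s hs
    rw [hA]
    exact h0 _ t s hs
  · intro i t s hs
    rw [hA']
    exact h1 _ t s hs
  · intro i t s ht
    exact he _ t s ht

end Pool.Agent.helper94.SLK
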