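import Pool.Agent.helper94.SLK.Defs

/-!
# String links: statements of the modules (project sl:, MP_d0cbcd_gt)

Statements and auxiliary definitions.
-/

open Set Filter
open scoped ContDiff

namespace Pool.Agent.helper94.SLK

/-! ## The zigzag -/

/-- ST: the smooth step is strictly increasing on `[0,1]`. On `(0,1)` it is `f x / (f x + f (1 - x))` with
`f x = exp (-1/x)`, `f' > 0`. -/
def ST_stmt : Prop := StrictMonoOn Real.smoothTransition (Icc 0 1) ∧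
  ∀ x, 0 < x → x < 1 → 0 < deriv Real.smoothTransition x

/-- ZG (uses ST): the planar zigzag. Immersion: `zx' = (st1' + st2') / 2` with `st1', st2' ≥ 0`; if it vanishes then `st1, st2` are
`0` or `1` (ST) and `zz' = 1 - 2 st1 + 2 st2 = ± 1`. Injective: `zx` is monotone; if `zx s = zx t` with `s < t` then `st1, st2` take
the same values at `s`, `t`, so `0` or `1`, and `zz` has slope `± 1`. -/
def ZG_stmt : Prop := ContDiff ℝ ∞ zig ∧ (∀ t, deriv zig t ≠ 0) ∧ Function.Injective zig ∧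
  (∀ t, t ≤ 5 / 4 → zig t = ((-1 / 2, 0), t)) ∧
  (∀ t, 7 / 4 ≤ t → t ≤ 13 / 4 → zig t = ((0, 0), 3 - t)) ∧
  (∀ t, 15 / 4 ≤ t → zig t = ((1 / 2, 0), t - 4)) ∧
  (∀ t, 1 < t → t < 2 → 1 < (zig t).2 ∧ (zig t).2 < 2 ∧ -1 / 2 ≤ (zig t).1.1 ∧ (zig t).1.1 ≤ 0) ∧
  (∀ t, 3 < t → t < 4 → -1 < (zig t).2 ∧ (zig t).2 < 0 ∧ 0 ≤ (zig t).1.1 ∧ (zig t).1.1 ≤ 1 / 2) ∧
  ∀ t, (zig t).1.2 = 0

/-! ## The absorbing isotopy -/

/-- the inverse of `sc c` -/
noncomputable def rc (c : ℝ) (x : R3) : R3 := ((2 * (x.1.1 - c), 2 * x.1.2), x.2)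

/-- squared distance from the axis at `(c, 0)` -/
noncomputable def rho (c : ℝ) (x : R3) : ℝ := (x.1.1 - c) ^ 2 + x.1.2 ^ 2

/-- the tube of `J` around `(-1/4, 0)`, in the upper half -/
noncomputable def gu (J : FK) (x : R3) : R3 := hi (sc (-1 / 4) (J.φ (rc (-1 / 4) (x.1, 2 * x.2 - 1))))

/-- the tube of `J'` around `(1/4, 0)`, in the lower half -/
noncomputable def gl (J' : FK) (x : R3) : R3 := lo (sc (1 / 4) (J'.φ (rc (1 / 4) (x.1, 2 * x.2))))

open Classical in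
/-- the tube of `J'` (around the strands `2`, `3`) in the lower half, the tube of `J` (around `1`, `2`) in the upper half, the
identity elsewhere -/
noncomputable def gm (J J' : FK) (x : R3) : R3 :=
  if 1 / 2 < x.2 then (if rho (-1 / 4) x < 9 / 64 then gu J x else x)
  else (if rho (1 / 4) x < 9 / 64 then gl J' x else x)

/-- where `gm` is a smooth embedding: away from the collars of the tubes -/
def dom : Set R3 := {x |
  (5 / 8 ≤ x.2 → x.2 ≤ 7 / 8 → (rho (-1 / 4) x < 9 / 64 ∨ 1 / 4 < rho (-1 / 4) x)) ∧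
  (1 / 8 ≤ x.2 → x.2 ≤ 3 / 8 → (rho (1 / 4) x < 9 / 64 ∨ 1 / 4 < rho (1 / 4) x))}

/-- the compression of heights into the slab `(3/8, 5/8)` -/
noncomputable def ht (z : ℝ) : ℝ :=
  1 / 2 + (z - 1 / 2) * (1 / 20 + 19 / 20 * Real.smoothTransition ((z - 1 / 2) ^ 2 - 9 / 4))

/-- HT: with `m` the second factor, `ht' = m + (z - 1/2) m' ≥ m > 0` -/
def HT_stmt : Prop := ContDiff ℝ ∞ ht ∧ (∀ z, 0 < deriv ht z) ∧ (∀ z, 3 ≤ |z| → ht z = z) ∧
  (∀ z, -1 ≤ z → z ≤ 2 → 3 / 8 < ht z ∧ ht z < 5 / 8) ∧ (∀ z, 1 / 2 < z → 1 / 2 < ht z) ∧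
  ∀ z, z < 1 / 2 → ht z < 1 / 2

end Pool.Agent.helper94.SLK
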