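import Pool.Agent.helper94.SLK.MU

/-! # Tied string links -/

open Set Filter
open scoped ContDiff Topology

namespace Pool.Agent.helper94.SLK

/-- the disk around `(c, 0)` contains the strands `a`, `b` and no other strand -/
def TC (c : ℝ) (a b : ℕ) : Prop := P a = (c - 1 / 4, 0) ∧ P b = (c + 1 / 4, 0) ∧ a ≠ b ∧
  ∀ k, k ≠ a → k ≠ b → 1 / 4 < ((P k).1 - c) ^ 2 + (P k).2 ^ 2

theorem TI_P3 (k : ℕ) : 2 / 3 ≤ (P (k + 3)).2 ∧ (P (k + 3)).2 < 1 ∧ (P (k + 3)).1 = 0 := by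
  have h1 : (0 : ℝ) < (k : ℝ) + 3 := by positivity
  have h2 : (1 : ℝ) / ((k : ℝ) + 3) ≤ 1 / 3 := by
    apply one_div_le_one_div_of_le (by norm_num)
    have : (0 : ℝ) ≤ k := Nat.cast_nonneg k
    linarith
  have h3 : (0 : ℝ) < 1 / ((k : ℝ) + 3) := by positivity
  simp only [P]
  exact ⟨by linarith, by linarith, trivial⟩

theorem TI_disk (k : ℕ) : P k ∈ disk := by
  rcases k with _ | _ | _ | k
  · show (-1 / 2 : ℝ) ^ 2 + (0 : ℝ) ^ 2 < 1
    norm_num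
  · show (0 : ℝ) ^ 2 + (0 : ℝ) ^ 2 < 1
    norm_num
  · show (1 / 2 : ℝ) ^ 2 + (0 : ℝ) ^ 2 < 1
    norm_num
  · obtain ⟨h1, h2, h3⟩ := TI_P3 k
    show (P (k + 3)).1 ^ 2 + (P (k + 3)).2 ^ 2 < 1
    rw [h3]
    nlinarith

theorem TI_inj : Function.Injective P := by
  intro i j h
  have hx : (P i).1 = (P j).1 := by rw [h]
  have hy : (P i).2 = (P j).2 := by rw [h]
  rcases i with _ | _ | _ | i <;> rcases j with _ | _ | _ | j
  · rfl
  · norm_num [P] at hx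
  · norm_num [P] at hx
  · obtain ⟨h1, h2, h3⟩ := TI_P3 j
    rw [h3] at hx
    norm_num [P] at hx
  · norm_num [P] at hx
  · rfl
  · norm_num [P] at hx
  · obtain ⟨h1, h2, h3⟩ := TI_P3 j
    rw [← hy] at h1
    norm_num [P] at h1
  · norm_num [P] at hx
  · norm_num [P] at hx
  · rfl
  · obtain ⟨h1, h2, h3⟩ := TI_P3 j
    rw [h3] at hx
    norm_num [P] at hx
  · obtain ⟨h1, h2, h3⟩ := TI_P3 i
    rw [h3] at hx
    norm_num [P] at hx
  · obtain ⟨h1, h2, h3⟩ := TI_P3 i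
    rw [hy] at h1
    norm_num [P] at h1
  · obtain ⟨h1, h2, h3⟩ := TI_P3 i
    rw [h3] at hx
    norm_num [P] at hx
  · simp only [P] at hy
    have hi : (0 : ℝ) < (i : ℝ) + 3 := by positivity
    have hj : (0 : ℝ) < (j : ℝ) + 3 := by positivity
    have h4 : (1 : ℝ) / ((i : ℝ) + 3) = 1 / ((j : ℝ) + 3) := by linarith
    have h5 : (i : ℝ) + 3 = (j : ℝ) + 3 := by
      field_simp at h4
      linarith
    have h6 : (i : ℝ) = j := by linarith
    have h7 : i = j := by exact_mod_cast h6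
    rw [h7]

theorem TI_TC12 : TC (-1 / 4) 0 1 := by
  refine ⟨?_, ?_, by norm_num, ?_⟩
  · simp only [P]; norm_num
  · simp only [P]; norm_num
  · intro k h0 h1
    rcases k with _ | _ | _ | k
    · exact absurd rfl h0
    · exact absurd rfl h1
    · simp only [P]; norm_num
    · obtain ⟨h1, h2, h3⟩ := TI_P3 k
      rw [h3]
      nlinarith

theorem TI_TC23 : TC (1 / 4) 1 2 := by
  refine ⟨?_, ?_, by norm_num, ?_⟩
  · simp only [P]; norm_num
  · simp only [P]; norm_num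
  · intro k h0 h1
    rcases k with _ | _ | _ | k
    · simp only [P]; norm_num
    · exact absurd rfl h0
    · exact absurd rfl h1
    · obtain ⟨h1, h2, h3⟩ := TI_P3 k
      rw [h3]
      nlinarith

theorem TI_tube_open : IsOpen tube := by
  apply isOpen_lt <;> fun_prop

theorem TI_line {ε : ℝ} (hε : ε ^ 2 = 1 / 4) (t : ℝ) : (((ε, 0), t) : R3) ∈ tube := by
  show ε ^ 2 + (0 : ℝ) ^ 2 < 9 / 16
  rw [hε]; norm_num

theorem TI_sc_smooth (c : ℝ) : ContDiff ℝ ∞ (sc c) := by unfold sc; fun_prop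

theorem TI_sc_rc (c : ℝ) (x : R3) : rc c (sc c x) = x := by
  simp only [sc, rc]
  refine Prod.ext (Prod.ext ?_ ?_) rfl <;> simp only <;> ring

theorem TI_rc_sc (c : ℝ) (x : R3) : sc c (rc c x) = x := by
  simp only [sc, rc]
  refine Prod.ext (Prod.ext ?_ ?_) rfl <;> simp only <;> ring

theorem TI_rc_smooth (c : ℝ) : ContDiff ℝ ∞ (rc c) := by unfold rc; fun_prop

theorem TI_sc_fd (c : ℝ) (x : R3) : Function.Injective (fderiv ℝ (sc c) x) :=
  fd_leftInv (g := rc c) (smooth_diff (TI_rc_smooth c) _) (smooth_diff (TI_sc_smooth c) _) (TI_sc_rc c)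

theorem TI_rc_fd (c : ℝ) (x : R3) : Function.Injective (fderiv ℝ (rc c) x) :=
  fd_leftInv (g := sc c) (smooth_diff (TI_sc_smooth c) _) (smooth_diff (TI_rc_smooth c) _) (TI_rc_sc c)

theorem TI_sc_inj (c : ℝ) : Function.Injective (sc c) := Function.LeftInverse.injective (TI_sc_rc c)

theorem TI_rho (c : ℝ) (x : R3) : rho c (sc c x) = (x.1.1 ^ 2 + x.1.2 ^ 2) / 4 := by
  simp only [rho, sc]; ring

/-- the values of a framed string knot -/
theorem TI_vals (J : FK) {x : R3} (hx : x ∈ tube) : (J.φ x).1 ∈ disk ∧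
    (0 < x.2 → 0 < (J.φ x).2) ∧ (x.2 < 1 → (J.φ x).2 < 1) := by
  have hx' : x.1.1 ^ 2 + x.1.2 ^ 2 < 9 / 16 := hx
  have hd : x.1 ∈ disk := by
    show x.1.1 ^ 2 + x.1.2 ^ 2 < 1
    linarith
  rcases le_or_gt x.2 (1 / 4) with h | h
  · rw [J.ends x hx (Or.inl h)]
    exact ⟨hd, fun h => h, fun h => h⟩
  · rcases le_or_gt (3 / 4) x.2 with h2 | h2
    · rw [J.ends x hx (Or.inr h2)]
      exact ⟨hd, fun h => h, fun h => h⟩
    · obtain ⟨a, b, c⟩ := J.inside x hx h h2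
      exact ⟨a, fun _ => by linarith, fun _ => by linarith⟩

/-- a strand in the tube -/
noncomputable def KK (c : ℝ) (J : FK) (ε t : ℝ) : R3 := sc c (J.φ ((ε, 0), t))

theorem TI_line_smooth (ε : ℝ) : ContDiff ℝ ∞ (fun t : ℝ => (((ε, 0), t) : R3)) := by fun_prop

theorem TI_KK_smooth (c : ℝ) (J : FK) {ε : ℝ} (hε : ε ^ 2 = 1 / 4) : ContDiff ℝ ∞ (KK c J ε) := by
  rw [contDiff_iff_contDiffAt]
  intro t
  have h1 : ContDiffAt ℝ ∞ J.φ ((ε, 0), t) := J.smooth.contDiffAt (TI_tube_open.mem_nhds (TI_line hε t))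
  have h2 : ContDiffAt ℝ ∞ (fun t : ℝ => J.φ ((ε, 0), t)) t :=
    ContDiffAt.comp (g := J.φ) (f := fun t : ℝ => (((ε, 0), t) : R3)) t h1 (TI_line_smooth ε).contDiffAt
  exact (TI_sc_smooth c).contDiffAt.comp t h2

theorem TI_KK_imm (c : ℝ) (J : FK) {ε : ℝ} (hε : ε ^ 2 = 1 / 4) (t : ℝ) : deriv (KK c J ε) t ≠ 0 := by
  apply deriv_fd
  have h1 : ContDiffAt ℝ ∞ J.φ ((ε, 0), t) := J.smooth.contDiffAt (TI_tube_open.mem_nhds (TI_line hε t))
  have h2 : ContDiffAt ℝ ∞ (fun t : ℝ => J.φ ((ε, 0), t)) t :=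
    ContDiffAt.comp (g := J.φ) (f := fun t : ℝ => (((ε, 0), t) : R3)) t h1 (TI_line_smooth ε).contDiffAt
  exact fd_comp (g := sc c) (f := fun t : ℝ => J.φ ((ε, 0), t)) (x := t) (smooth_diff (TI_sc_smooth c) _)
    (h2.differentiableAt (by norm_num)) (TI_sc_fd c _)
    (fd_comp (g := J.φ) (f := fun t : ℝ => (((ε, 0), t) : R3)) (x := t) (h1.differentiableAt (by norm_num))
      (smooth_diff (TI_line_smooth ε) _) (J.imm _ (TI_line hε t))
      (fd_leftInv (g := fun x : R3 => x.2) (by fun_prop) (smooth_diff (TI_line_smooth ε) _) (fun y => rfl)))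

theorem TI_KK_inj (c : ℝ) (J : FK) {ε ε' : ℝ} (hε : ε ^ 2 = 1 / 4) (hε' : ε' ^ 2 = 1 / 4) {t t' : ℝ}
    (h : KK c J ε t = KK c J ε' t') : ε = ε' ∧ t = t' := by
  have h1 := J.inj (TI_line hε t) (TI_line hε' t') (TI_sc_inj c h)
  exact ⟨congrArg (fun x : R3 => x.1.1) h1, congrArg (fun x : R3 => x.2) h1⟩

theorem TI_KK_rho (c : ℝ) (J : FK) {ε : ℝ} (hε : ε ^ 2 = 1 / 4) (t : ℝ) : rho c (KK c J ε t) < 1 / 4 := by
  have h1 : (J.φ ((ε, 0), t)).1.1 ^ 2 + (J.φ ((ε, 0), t)).1.2 ^ 2 < 1 := (TI_vals J (TI_line hε t)).1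
  simp only [KK, TI_rho]
  linarith

theorem TI_KK_cyl (c : ℝ) (hc : |c| ≤ 1 / 4) (J : FK) {ε : ℝ} (hε : ε ^ 2 = 1 / 4) {t : ℝ} (h0 : 0 < t) (h1 : t < 1) :
    KK c J ε t ∈ cyl3 := by
  obtain ⟨a, b, d⟩ := TI_vals J (TI_line hε t)
  refine ⟨?_, b h0, d h1⟩
  have ha : (J.φ ((ε, 0), t)).1.1 ^ 2 + (J.φ ((ε, 0), t)).1.2 ^ 2 < 1 := a
  show (c + (J.φ ((ε, 0), t)).1.1 / 2) ^ 2 + ((J.φ ((ε, 0), t)).1.2 / 2) ^ 2 < 1
  have hc' := abs_le.1 hc
  have e1 : c ^ 2 ≤ 1 / 16 := by nlinarith [hc'.1, hc'.2]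
  nlinarith [sq_nonneg (c - (J.φ ((ε, 0), t)).1.1 / 2), sq_nonneg (J.φ ((ε, 0), t)).1.2]

theorem TI_KK_ends (c : ℝ) (J : FK) {ε : ℝ} (hε : ε ^ 2 = 1 / 4) {t : ℝ} (h : t ≤ 1 / 4 ∨ 3 / 4 ≤ t) :
    KK c J ε t = ((c + ε / 2, 0), t) := by
  simp only [KK]
  rw [J.ends _ (TI_line hε t) h]
  simp [sc]

theorem TI_tie (c : ℝ) (a b m : ℕ) (J : FK) (i : Fin m) (t : ℝ) : tieF c a b m J i t =
    if (i : ℕ) = a then KK c J (-1 / 2) t else if (i : ℕ) = b then KK c J (1 / 2) t else (pts m i, t) := rfl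

/-- TI -/
theorem TI {c : ℝ} (hc : |c| ≤ 1 / 4) {a b : ℕ} (hab : TC c a b) (m : ℕ) (J : FK) :
    ∃ L : SL m (pts m), L.f = tieF c a b m J := by
  obtain ⟨ha, hb, hne, ho⟩ := hab
  have e1 : (-1 / 2 : ℝ) ^ 2 = 1 / 4 := by norm_num
  have e2 : (1 / 2 : ℝ) ^ 2 = 1 / 4 := by norm_num
  have sv : ∀ p : R2, ContDiff ℝ ∞ (fun t : ℝ => ((p, t) : R3)) := fun p => by fun_prop
  have fa : ∀ i : Fin m, (i : ℕ) = a → tieF c a b m J i = KK c J (-1 / 2) := fun i h => by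
    funext t
    rw [TI_tie, if_pos h]
  have fb : ∀ i : Fin m, (i : ℕ) = b → tieF c a b m J i = KK c J (1 / 2) := fun i h => by
    funext t
    rw [TI_tie, if_neg (by rw [h]; exact hne.symm), if_pos h]
  have fo : ∀ i : Fin m, (i : ℕ) ≠ a → (i : ℕ) ≠ b → tieF c a b m J i = fun t => (pts m i, t) := fun i h h' => by
    funext t
    rw [TI_tie, if_neg h, if_neg h']
  have cases3 : ∀ i : Fin m, (i : ℕ) = a ∨ (i : ℕ) = b ∨ ((i : ℕ) ≠ a ∧ (i : ℕ) ≠ b) := fun i => by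
    by_cases h1 : (i : ℕ) = a
    · exact Or.inl h1
    · by_cases h2 : (i : ℕ) = b
      · exact Or.inr (Or.inl h2)
      · exact Or.inr (Or.inr ⟨h1, h2⟩)
  have ro : ∀ i : Fin m, (i : ℕ) ≠ a → (i : ℕ) ≠ b → ∀ t : ℝ, 1 / 4 < rho c ((pts m i, t) : R3) :=
    fun i h h' t => ho i h h'
  refine ⟨⟨tieF c a b m J, ?_, ?_, ?_, ?_, 1 / 4, by norm_num, ?_⟩, rfl⟩
  · intro i
    rcases cases3 i with h | h | h
    · rw [fa i h]; exact TI_KK_smooth c J e1
    · rw [fb i h]; exact TI_KK_smooth c J e2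
    · rw [fo i h.1 h.2]; exact sv _
  · intro i t
    rcases cases3 i with h | h | h
    · rw [fa i h]; exact TI_KK_imm c J e1 t
    · rw [fb i h]; exact TI_KK_imm c J e2 t
    · rw [fo i h.1 h.2]
      exact deriv_fd (fd_leftInv (g := fun x : R3 => x.2) (by fun_prop) (smooth_diff (sv _) _) (fun y => rfl))
  · intro i j s t hq
    rcases cases3 i with h | h | h <;> rcases cases3 j with h' | h' | h'
    · rw [fa i h, fa j h'] at hq
      exact ⟨Fin.ext (h.trans h'.symm), (TI_KK_inj c J e1 e1 hq).2⟩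
    · rw [fa i h, fb j h'] at hq
      have := (TI_KK_inj c J e1 e2 hq).1
      norm_num at this
    · rw [fa i h, fo j h'.1 h'.2] at hq
      have u := TI_KK_rho c J e1 s
      rw [hq] at u
      exact absurd u (not_lt.2 (ro j h'.1 h'.2 t).le)
    · rw [fb i h, fa j h'] at hq
      have := (TI_KK_inj c J e2 e1 hq).1
      norm_num at this
    · rw [fb i h, fb j h'] at hq
      exact ⟨Fin.ext (h.trans h'.symm), (TI_KK_inj c J e2 e2 hq).2⟩
    · rw [fb i h, fo j h'.1 h'.2] at hq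
      have u := TI_KK_rho c J e2 s
      rw [hq] at u
      exact absurd u (not_lt.2 (ro j h'.1 h'.2 t).le)
    · rw [fo i h.1 h.2, fa j h'] at hq
      have u := TI_KK_rho c J e1 t
      rw [← hq] at u
      exact absurd u (not_lt.2 (ro i h.1 h.2 s).le)
    · rw [fo i h.1 h.2, fb j h'] at hq
      have u := TI_KK_rho c J e2 t
      rw [← hq] at u
      exact absurd u (not_lt.2 (ro i h.1 h.2 s).le)
    · rw [fo i h.1 h.2, fo j h'.1 h'.2] at hq
      have u1 : pts m i = pts m j := congrArg (fun x : R3 => x.1) hq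
      have u2 : s = t := congrArg (fun x : R3 => x.2) hq
      exact ⟨Fin.ext (TI_inj u1), u2⟩
  · intro i t h0 h1
    rcases cases3 i with h | h | h
    · rw [fa i h]; exact TI_KK_cyl c hc J e1 h0 h1
    · rw [fb i h]; exact TI_KK_cyl c hc J e2 h0 h1
    · rw [fo i h.1 h.2]; exact ⟨TI_disk i, h0, h1⟩
  · intro i t ht
    have ht' : t ≤ 1 / 4 ∨ 3 / 4 ≤ t := ht.imp id (fun h => by linarith)
    rcases cases3 i with h | h | h
    · rw [fa i h, TI_KK_ends c J e1 ht']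
      have : pts m i = (c - 1 / 4, 0) := by rw [← ha, ← h]; rfl
      rw [this]
      refine Prod.ext (Prod.ext ?_ rfl) rfl
      simp only
      ring
    · rw [fb i h, TI_KK_ends c J e2 ht']
      have : pts m i = (c + 1 / 4, 0) := by rw [← hb, ← h]; rfl
      rw [this]
      refine Prod.ext (Prod.ext ?_ rfl) rfl
      simp only
      ring
    · rw [fo i h.1 h.2]

/-- the trivial string link -/
theorem TI_triv (m : ℕ) : ∃ L : SL m (pts m), L.f = trivF m := by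
  have sv : ∀ p : R2, ContDiff ℝ ∞ (fun t : ℝ => ((p, t) : R3)) := fun p => by fun_prop
  refine ⟨⟨trivF m, fun i => sv _, ?_, ?_, ?_, 1, one_pos, fun i t _ => rfl⟩, rfl⟩
  · intro i t
    exact deriv_fd (fd_leftInv (f := fun t : ℝ => ((pts m i, t) : R3)) (g := fun x : R3 => x.2) (by fun_prop)
      (smooth_diff (sv _) _) (fun y => rfl))
  · intro i j s t hq
    have u1 : pts m i = pts m j := congrArg (fun x : R3 => x.1) hq
    have u2 : s = t := congrArg (fun x : R3 => x.2) hq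
    exact ⟨Fin.ext (TI_inj u1), u2⟩
  · intro i t h0 h1
    exact ⟨TI_disk i, h0, h1⟩

end Pool.Agent.helper94.SLK
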